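import Pool.Agent.ANO2.Iface
import Pool.Agent.ANO.Cone.LinA
import Pool.Agent.ANO.Idx.ModelF

/-!
# ANO phase 2: periodic points of affine hyperbolic maps of the torus (package ANO2-P4)

* `lattice_dense`: given `ε > 0` there is `R` such that every `x : ℝ^k` is `v + (x - v)` with `v ∈ ℤ^k`,
  `NS (x - v) ≤ ε`, `NU (x - v) ≤ R`.  Proof: let `a` be from `L.upper` (`a ≥ 0`).  Choose `n` with
  `a ≤ ε lam^n`.  `A` is invertible over `ℤ`; let `y = A^(-n) x`, `u ∈ ℤ^k` with `‖y - u‖ ≤ 1` (round down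
  every coordinate), `v = A^n u`.  `x - v = A^n (y - u)`, so `lam^n NS (x - v) ≤ NS (y - u) ≤ a`
  (`NS_A`, induction), and `NU (x - v) ≤ a ‖A^n (y - u)‖ ≤ a c_n` with `c_n` a bound for the norm of the
  linear map `A^n` (`LinearMap.toContinuousLinearMap`, `le_opNorm`).
* `torus_fix`: `1 - A^M` is injective (`Pool.Agent.ANO.Idx.hyperbolic_pow`), so surjective
  (`LinearMap.surjective_of_injective`).
* `torus_near`: let `R` be from `lattice_dense` with `ε' `.  Given `c`, `t0`, put `x = A^M t0 + c - t0`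
  and let `v ∈ ℤ^k` be such that `NS (x + v) ≤ ε'`, `NU (x + v) ≤ R` (apply `lattice_dense` to `x` and
  negate `v`).  Let `t` be from `torus_fix`: `A^M t + c + v = t`, `u = t - t0`: `u = A^M u + (x + v)`.
  `NS u ≤ NS (A^M u) + ε'`, `lam^M NS (A^M u) ≤ NS u`, so `NS u (1 - lam^(-M)) ≤ ε'`;
  `lam^M NU u ≤ NU (A^M u) ≤ NU u + R`, so `NU u ≤ R / (lam^M - 1)`.  For `ε' = ε (1 - 1/lam) / 2` and `M`
  large both are `≤ ε / 2`, and `‖u‖ ≤ NU u + NS u` (`L.lower`).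
-/

set_option autoImplicit false

open Set Filter Topology

namespace Pool.Agent.ANO2

open Pool.Agent.ANO Pool.Agent.ANO.Cone

variable {k : ℕ} {A : Matrix (Fin k) (Fin k) ℤ}

private theorem map_pow_LinDense (A : Matrix (Fin k) (Fin k) ℤ) (n : ℕ) :
    (A ^ n).map (Int.cast : ℤ → ℝ) = (A.map (Int.cast : ℤ → ℝ)) ^ n :=
  map_pow (Int.castRingHom ℝ).mapMatrix A n

private theorem ns_pow_LinDense (L : LinGeo A) (n : ℕ) (v : Fin k → ℝ) :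
    L.lam ^ n * L.NS (((A ^ n).map (Int.cast : ℤ → ℝ)).mulVec v) ≤ L.NS v := by
  have hl : 0 < L.lam := zero_lt_one.trans L.one_lt
  rw [map_pow_LinDense]
  induction n with
  | zero => simp
  | succ n ih =>
    rw [pow_succ' (A.map (Int.cast : ℤ → ℝ)), ← Matrix.mulVec_mulVec, pow_succ, mul_assoc]
    exact (mul_le_mul_of_nonneg_left (L.NS_A _) (pow_pos hl n).le).trans ih

private theorem nu_pow_LinDense (L : LinGeo A) (n : ℕ) (v : Fin k → ℝ) :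
    L.lam ^ n * L.NU v ≤ L.NU (((A ^ n).map (Int.cast : ℤ → ℝ)).mulVec v) := by
  have hl : 0 < L.lam := zero_lt_one.trans L.one_lt
  rw [map_pow_LinDense]
  induction n with
  | zero => simp
  | succ n ih =>
    rw [pow_succ' (A.map (Int.cast : ℤ → ℝ)), ← Matrix.mulVec_mulVec, pow_succ', mul_assoc]
    exact (mul_le_mul_of_nonneg_left ih hl.le).trans (L.NU_A _)

theorem lattice_dense (hA : IsHyperbolicMatrix A) (L : LinGeo A) {ε : ℝ} (hε : 0 < ε) :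
    ∃ R : ℝ, ∀ x : Fin k → ℝ, ∃ v : Fin k → ℤ,
      L.NS (x - fun j => (v j : ℝ)) ≤ ε ∧ L.NU (x - fun j => (v j : ℝ)) ≤ R := by
  obtain ⟨C, hC⟩ := L.upper
  obtain ⟨a, ha⟩ : ∃ a : ℝ, a = max C 0 := ⟨_, rfl⟩
  have ha0 : 0 ≤ a := ha ▸ le_max_right _ _
  have hCa : C ≤ a := ha ▸ le_max_left _ _
  have hup : ∀ v, L.NU v ≤ a * ‖v‖ ∧ L.NS v ≤ a * ‖v‖ := fun v =>
    ⟨(hC v).1.trans (mul_le_mul_of_nonneg_right hCa (norm_nonneg v)),
      (hC v).2.trans (mul_le_mul_of_nonneg_right hCa (norm_nonneg v))⟩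
  obtain ⟨n, hn⟩ := pow_unbounded_of_one_lt (a / ε) L.one_lt
  rw [div_lt_iff₀ hε] at hn
  have hl : 0 < L.lam ^ n := pow_pos (zero_lt_one.trans L.one_lt) n
  have hdet : IsUnit (A ^ n).det := by
    rw [Matrix.det_pow]
    exact hA.1.pow n
  have hmul : (A ^ n).map (Int.cast : ℤ → ℝ) * ((A ^ n)⁻¹).map (Int.cast : ℤ → ℝ) = 1 := by
    have h1 : (Int.castRingHom ℝ).mapMatrix (A ^ n) *
        (Int.castRingHom ℝ).mapMatrix (A ^ n)⁻¹ = 1 := by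
      rw [← map_mul, Matrix.mul_nonsing_inv (A ^ n) hdet, map_one]
    exact h1
  obtain ⟨Φ, hΦ⟩ : ∃ Φ : (Fin k → ℝ) →L[ℝ] (Fin k → ℝ), ∀ z,
      Φ z = ((A ^ n).map (Int.cast : ℤ → ℝ)).mulVec z :=
    ⟨LinearMap.toContinuousLinearMap (Matrix.toLin' ((A ^ n).map (Int.cast : ℤ → ℝ))),
      fun z => by rw [LinearMap.coe_toContinuousLinearMap', Matrix.toLin'_apply]⟩
  refine ⟨a * ‖Φ‖, fun x => ?_⟩
  obtain ⟨y, hy⟩ : ∃ y : Fin k → ℝ, ((A ^ n).map (Int.cast : ℤ → ℝ)).mulVec y = x :=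
    ⟨(((A ^ n)⁻¹).map (Int.cast : ℤ → ℝ)).mulVec x, by
      rw [Matrix.mulVec_mulVec, hmul, Matrix.one_mulVec]⟩
  have hcast : (fun j => (((A ^ n).mulVec (fun j => ⌊y j⌋) j : ℤ) : ℝ)) =
      ((A ^ n).map (Int.cast : ℤ → ℝ)).mulVec (fun j => ((⌊y j⌋ : ℤ) : ℝ)) := by
    funext j
    simp only [Matrix.mulVec, dotProduct, Matrix.map_apply]
    push_cast
    rfl
  refine ⟨(A ^ n).mulVec (fun j => ⌊y j⌋), ?_⟩
  have hd : ‖y - fun j => ((⌊y j⌋ : ℤ) : ℝ)‖ ≤ 1 := by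
    rw [pi_norm_le_iff_of_nonneg zero_le_one]
    intro j
    rw [Pi.sub_apply, Real.norm_eq_abs, abs_le]
    have h1 := Int.floor_le (y j)
    have h2 := Int.lt_floor_add_one (y j)
    constructor <;> linarith
  have hx : x - (fun j => (((A ^ n).mulVec (fun j => ⌊y j⌋) j : ℤ) : ℝ)) =
      ((A ^ n).map (Int.cast : ℤ → ℝ)).mulVec (y - fun j => ((⌊y j⌋ : ℤ) : ℝ)) := by
    rw [hcast, Matrix.mulVec_sub, hy]
  rw [hx]
  constructor
  · have h1 := ns_pow_LinDense L n (y - fun j => ((⌊y j⌋ : ℤ) : ℝ))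
    have h2 := (hup (y - fun j => ((⌊y j⌋ : ℤ) : ℝ))).2
    have h3 : a * ‖y - fun j => ((⌊y j⌋ : ℤ) : ℝ)‖ ≤ a := by
      have := mul_le_mul_of_nonneg_left hd ha0
      linarith
    have h4 : L.lam ^ n * L.NS (((A ^ n).map (Int.cast : ℤ → ℝ)).mulVec
        (y - fun j => ((⌊y j⌋ : ℤ) : ℝ))) ≤ L.lam ^ n * ε := by linarith
    exact le_of_mul_le_mul_left h4 hl
  · refine ((hup _).1).trans (mul_le_mul_of_nonneg_left ?_ ha0)
    rw [← hΦ]
    calc ‖Φ (y - fun j => ((⌊y j⌋ : ℤ) : ℝ))‖ ≤ ‖Φ‖ * ‖y - fun j => ((⌊y j⌋ : ℤ) : ℝ)‖ :=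
          Φ.le_opNorm _
      _ ≤ ‖Φ‖ * 1 := mul_le_mul_of_nonneg_left hd (norm_nonneg Φ)
      _ = ‖Φ‖ := mul_one _

theorem torus_fix (hA : IsHyperbolicMatrix A) {M : ℕ} (hM : 0 < M) (c : Fin k → ℝ) :
    ∃ t : Fin k → ℝ, ((A ^ M).map (Int.cast : ℤ → ℝ)).mulVec t + c = t := by
  obtain ⟨f, hf⟩ : ∃ f : (Fin k → ℝ) →ₗ[ℝ] (Fin k → ℝ), ∀ z,
      f z = z - ((A ^ M).map (Int.cast : ℤ → ℝ)).mulVec z :=
    ⟨LinearMap.id - Matrix.toLin' ((A ^ M).map (Int.cast : ℤ → ℝ)), fun z => by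
      rw [LinearMap.sub_apply, LinearMap.id_apply, Matrix.toLin'_apply]⟩
  have hinj : Function.Injective f := by
    rw [injective_iff_map_eq_zero]
    intro u hu
    rw [hf, sub_eq_zero] at hu
    exact Pool.Agent.ANO.Idx.hyperbolic_pow hA hM hu.symm
  obtain ⟨t, ht⟩ := LinearMap.surjective_of_injective hinj c
  refine ⟨t, ?_⟩
  rw [hf] at ht
  rw [← ht]
  abel

/-- Fixed points of the maps `t ↦ A^M t + c + v`, `v ∈ ℤ^k`, are dense for large `M`, uniformly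
in `c`. -/
theorem torus_near (hA : IsHyperbolicMatrix A) {ε : ℝ} (hε : 0 < ε) : ∃ M0 : ℕ, ∀ M, M0 ≤ M →
    0 < M → ∀ c t0 : Fin k → ℝ, ∃ (v : Fin k → ℤ) (t : Fin k → ℝ), ‖t - t0‖ ≤ ε ∧
      ((A ^ M).map (Int.cast : ℤ → ℝ)).mulVec t + c + (fun j => (v j : ℝ)) = t := by
  obtain ⟨L⟩ := exists_linGeo A hA
  have h1 := L.one_lt
  have hl : 0 < L.lam := zero_lt_one.trans h1
  obtain ⟨ε', hε'⟩ : ∃ ε' : ℝ, ε' = ε * (L.lam - 1) / (2 * L.lam) := ⟨_, rfl⟩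
  have hε0 : 0 < ε' := by
    rw [hε']
    exact div_pos (mul_pos hε (by linarith)) (by linarith)
  have hε1 : L.lam * ε' = ε * (L.lam - 1) / 2 := by
    rw [hε']
    field_simp
  obtain ⟨R, hR⟩ := lattice_dense hA L hε0
  have hR0 : 0 ≤ R := by
    obtain ⟨v, -, hv⟩ := hR 0
    exact (L.NU_nonneg _).trans hv
  obtain ⟨n, hn⟩ := pow_unbounded_of_one_lt (1 + 2 * (R + 1) / ε) h1
  refine ⟨n, fun M hnM hM c t0 => ?_⟩
  have hpow : 1 + 2 * (R + 1) / ε < L.lam ^ M := hn.trans_le (pow_le_pow_right₀ h1.le hnM)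
  have hlM : L.lam ≤ L.lam ^ M := le_self_pow₀ h1.le hM.ne'
  obtain ⟨x, hx⟩ : ∃ x : Fin k → ℝ,
      x = ((A ^ M).map (Int.cast : ℤ → ℝ)).mulVec t0 + c - t0 := ⟨_, rfl⟩
  obtain ⟨v, hv1, hv2⟩ := hR x
  obtain ⟨t, ht⟩ := torus_fix hA hM (c + fun j => ((-v j : ℤ) : ℝ))
  refine ⟨fun j => -v j, t, ?_, by rw [add_assoc]; exact ht⟩
  obtain ⟨s, hs⟩ : ∃ s : Fin k → ℝ, s = x - fun j => (v j : ℝ) := ⟨_, rfl⟩
  rw [← hs] at hv1 hv2
  have hneg : (fun j => ((-v j : ℤ) : ℝ)) = - fun j => (v j : ℝ) := by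
    funext j
    push_cast
    rfl
  have hu : t - t0 = ((A ^ M).map (Int.cast : ℤ → ℝ)).mulVec (t - t0) + s := by
    rw [hneg] at ht
    rw [Matrix.mulVec_sub, hs, hx]
    nth_rewrite 1 [← ht]
    abel
  obtain ⟨u, hu'⟩ : ∃ u, u = t - t0 := ⟨_, rfl⟩
  rw [← hu'] at hu ⊢
  obtain ⟨w, hw⟩ : ∃ w, w = ((A ^ M).map (Int.cast : ℤ → ℝ)).mulVec u := ⟨_, rfl⟩
  have hNS1 : L.lam ^ M * L.NS w ≤ L.NS u := by
    rw [hw]
    exact ns_pow_LinDense L M u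
  have hNU1 : L.lam ^ M * L.NU u ≤ L.NU w := by
    rw [hw]
    exact nu_pow_LinDense L M u
  rw [← hw] at hu
  have hNS2 : L.NS u ≤ L.NS w + L.NS s := by
    nth_rewrite 1 [hu]
    exact L.NS_add w s
  have hNU2 : L.NU w ≤ L.NU u + L.NU s := by
    have h2 : w = u + -s := by
      rw [hu]
      abel
    rw [h2, ← L.NU_neg s]
    exact L.NU_add u (-s)
  have hNS : L.NS u ≤ ε / 2 := by
    have h2 : L.lam * L.NS w ≤ L.NS u :=
      (mul_le_mul_of_nonneg_right hlM (L.NS_nonneg w)).trans hNS1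
    have h3 : (L.lam - 1) * L.NS u ≤ (L.lam - 1) * (ε / 2) := by
      have h4 : L.lam * L.NS u ≤ L.lam * (L.NS w + ε') :=
        mul_le_mul_of_nonneg_left (by linarith) hl.le
      nlinarith
    exact le_of_mul_le_mul_left h3 (by linarith)
  have hNU : L.NU u ≤ ε / 2 := by
    have h2 : (2 * (R + 1) / ε) * L.NU u ≤ (2 * (R + 1) / ε) * (ε / 2) := by
      have h3 : (2 * (R + 1) / ε) * (ε / 2) = R + 1 := by field_simp
      have h4 : (2 * (R + 1) / ε) * L.NU u ≤ (L.lam ^ M - 1) * L.NU u :=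
        mul_le_mul_of_nonneg_right (by linarith) (L.NU_nonneg u)
      rw [h3]
      linarith
    exact le_of_mul_le_mul_left h2 (by positivity)
  have := L.lower u
  linarith

end Pool.Agent.ANO2
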