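import Pool.Agent.ANO2.Prod.Setup
import Pool.Agent.ANO2.Prod.LinDense
import Pool.Agent.ANO2.Core.Main

/-!
# ANO phase 2: the local data of the core at a product of a singularity and regular points
-/

set_option autoImplicit false

open Set Filter Topology
open scoped UpperHalfPlane MatrixGroups

namespace Pool.Agent.ANO2

open Pool.Agent.ANO

variable {r k : ℕ} {S : Fin r → SurfaceMap} {A : Matrix (Fin k) (Fin k) ℤ}
  {τ : (Fin r → ℍ) → (Fin k → ℝ)}

/-- Common powers of lifts. -/
theorem exists_lifts {m : Fin r → ℕ} (hm : ∀ i, 0 < m i) {H : Fin r → ℍ → ℍ}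
    (hH : ∀ i, IsLift (S i) (m i) (H i)) {c : ℕ} (hc : 0 < c) :
    ∃ e : Fin r → ℕ, (∀ i, 0 < e i) ∧ ∀ i, IsLift (S i) ((∏ i, m i) * c) (H i)^[e i] := by
  classical
  refine ⟨fun i => (∏ j ∈ Finset.univ.erase i, m j) * c, fun i => ?_, fun i => ?_⟩
  · exact Nat.mul_pos (Finset.prod_pos fun j _ => hm j) hc
  · have h1 : (∏ i, m i) * c = m i * ((∏ j ∈ Finset.univ.erase i, m j) * c) := by
      rw [← mul_assoc, Finset.mul_prod_erase Finset.univ m (Finset.mem_univ i)]
    rw [h1]
    exact (hH i).iterate _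

/-- The coordinates of iterates of `g (model^m)`. -/
theorem coord_iterate {g : X r k → X r k} {m : ℕ} {T : Fin r → ℍ → ℍ}
    (coord : ∀ p i, (g ((model S A τ)^[m] p)).1 i = T i (p.1 i)) (j : ℕ) (p : X r k)
    (i : Fin r) : ((fun x => g ((model S A τ)^[m] x))^[j] p).1 i = (T i)^[j] (p.1 i) := by
  induction j with
  | zero => rfl
  | succ j ih =>
    rw [Function.iterate_succ', Function.comp_apply, coord, ih, Function.iterate_succ',
      Function.comp_apply]

theorem model_iterate_fix {g : X r k → X r k} {m : ℕ} {F : X r k ≃ₜ X r k} {M : ℕ}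
    (hh : Homotopic (surf S) (model S A τ)^[m] (F ^ M : X r k ≃ₜ X r k))
    (hg : IsDeck (surf S) k g) (j : ℕ) :
    ∃ gj, IsDeck (surf S) k gj ∧
      (∀ x, (fun x => g ((model S A τ)^[m] x))^[j] x = gj ((model S A τ)^[m * j] x)) ∧
      ∀ x, (fun x => g ((F ^ M) x))^[j] x = gj ((F ^ (M * j)) x) := by
  induction j with
  | zero => exact ⟨id, IsDeck.id (surf S), fun x => rfl, fun x => rfl⟩
  | succ j ih =>
    obtain ⟨gj, hgj, h1, h2⟩ := ih
    obtain ⟨g', hg', h3, h4⟩ := hh gj hgj
    refine ⟨g ∘ g', hg.comp hg', fun x => ?_, fun x => ?_⟩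
    · rw [Function.iterate_succ', Function.comp_apply, h1, Function.comp_apply, mul_add, mul_one,
        add_comm, Function.iterate_add, Function.comp_apply]
      congr 1
      exact congrFun h3 _
    · rw [Function.iterate_succ', Function.comp_apply, h2, Function.comp_apply, mul_add, mul_one,
        add_comm, pow_add]
      congr 1
      exact congrFun h4 _

/-- A lift of a power of the model with given surface components, with a fixed point over a given
point of `ℍ^r`, near a given point of `ℝ^k`. -/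
theorem exists_fix {m : ℕ} {T : Fin r → ℍ → ℍ} (hT : ∀ i, IsLift (S i) m (T i))
    {z : Fin r → ℍ} (hz : ∀ i, T i (z i) = z i) {v : Fin k → ℤ} {t : Fin k → ℝ}
    (ht : ((A ^ m).map (Int.cast : ℤ → ℝ)).mulVec t + ((model S A τ)^[m] (z, 0)).2 +
      (fun j => (v j : ℝ)) = t) :
    ∃ g : X r k → X r k, IsDeck (surf S) k g ∧ g ((model S A τ)^[m] (z, t)) = (z, t) ∧
      ∀ p i, (g ((model S A τ)^[m] p)).1 i = T i (p.1 i) := by
  obtain ⟨g, hg, h⟩ := lift_prod (A := A) (τ := τ) hT v
  refine ⟨g, hg, ?_, fun p i => by rw [h]⟩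
  rw [h]
  refine Prod.ext (funext hz) ?_
  funext j
  change ((model S A τ)^[m] (z, t)).2 j + (v j : ℝ) = t j
  rw [model_snd]
  exact congrFun ht j

/-- The forms of the iterates. -/
theorem exists_form_iterate (hA : IsHyperbolicMatrix A) (hτ : Continuous τ) {m : ℕ} (hm : 0 < m)
    {g : X r k → X r k} (hg : IsDeck (surf S) k g) {T : Fin r → ℍ → ℍ}
    (h : ∀ p i, (g ((model S A τ)^[m] p)).1 i = T i (p.1 i)) :
    ∃ Φ : Form (g ∘ (model S A τ)^[m]), Φ.H = T := by
  obtain ⟨Φ, -⟩ := exists_form (S := S) hA hτ hm hg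
  exact ⟨Φ, funext fun i => form_H Φ fun p => h p i⟩

theorem eventually_iterate {s : ℍ} {H : ℍ → ℍ} (hs : H s = s) (hH : Continuous H)
    {P : ℍ → Prop} (hP : ∀ᶠ z in 𝓝 s, P z ↔ P (H z)) (c : ℕ) :
    ∀ᶠ z in 𝓝 s, P z ↔ P (H^[c] z) := by
  induction c with
  | zero => exact Eventually.of_forall fun z => Iff.rfl
  | succ c ih =>
    have h1 : Tendsto H^[c] (𝓝 s) (𝓝 s) := by
      have h2 := (hH.iterate c).tendsto s
      rwa [Function.iterate_fixed hs] at h2
    filter_upwards [ih, h1.eventually hP] with z h2 h3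
    rw [h2, h3, Function.iterate_succ', Function.comp_apply]

/-- The local data of the core. -/
theorem exists_local (hr : 0 < r) (G : ∀ i, PAGeo (S i)) (hA : IsHyperbolicMatrix A)
    (hτ : IsTwist (surf S) τ) (F : X r k ≃ₜ X r k) (hF : IsAnosovLift (surf S) F) (n : ℕ)
    (hn : 0 < n) (hh : Homotopic (surf S) (model S A τ) (F ^ n : X r k ≃ₜ X r k))
    (hidx : IndexStatement) (hreg : RegularStatement) (hcount : CountStatement) :
    Nonempty (Core.Local (mkSetup S A τ G hA hτ F hF n hn hh hidx)) := by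
  classical
  set i0 : Fin r := ⟨0, hr⟩ with hi0
  set D := (G i0).cone with hD
  choose zr mr Hr hmr hlr hrr using fun i => (G i).regular
  -- the data
  set m : Fin r → ℕ := Function.update mr i0 D.m with hm_def
  set H : Fin r → ℍ → ℍ := Function.update Hr i0 D.H with hH_def
  set z : Fin r → ℍ := Function.update zr i0 D.s with hz_def
  have hm0 : m i0 = D.m := Function.update_self ..
  have hH0 : H i0 = D.H := Function.update_self ..
  have hz0 : z i0 = D.s := Function.update_self ..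
  have hm1 : ∀ i, i ≠ i0 → m i = mr i := fun i hi => Function.update_of_ne hi _ _
  have hH1 : ∀ i, i ≠ i0 → H i = Hr i := fun i hi => Function.update_of_ne hi _ _
  have hz1 : ∀ i, i ≠ i0 → z i = zr i := fun i hi => Function.update_of_ne hi _ _
  have hmpos : ∀ i, 0 < m i := by
    intro i
    by_cases hi : i = i0
    · rw [hi, hm0]; exact D.m_pos
    · rw [hm1 i hi]; exact hmr i
  have hlift : ∀ i, IsLift (S i) (m i) (H i) := by
    intro i
    by_cases hi : i = i0
    · rw [hi, hm0, hH0]; exact D.lift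
    · rw [hm1 i hi, hH1 i hi]; exact hlr i
  have hcone : ∀ j, 0 < j → ConeFixed (z i0) D.n (H i0)^[j] := by
    intro j hj
    rw [hz0, hH0]; exact D.cone j hj
  have hregp : ∀ i, i ≠ i0 → ∀ j, 0 < j → RegFixed (z i) (H i)^[j] := by
    intro i hi j hj
    rw [hz1 i hi, hH1 i hi]; exact hrr i j hj
  have hfixp : ∀ i j, 0 < j → (H i)^[j] (z i) = z i := by
    intro i j hj
    by_cases hi : i = i0
    · rw [hi]; exact (hcone j hj).1
    · exact (hregp i hi j hj).1
  obtain ⟨e, he, hT⟩ := exists_lifts hmpos hlift Nat.one_pos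
  rw [mul_one] at hT
  set M := ∏ i, m i with hM
  have hMpos : 0 < M := Finset.prod_pos fun i _ => hmpos i
  obtain ⟨t, ht⟩ := torus_fix hA hMpos ((model S A τ)^[M] (z, (0 : Fin k → ℝ))).2
  obtain ⟨g0, hg0, hfix, hcoord⟩ := exists_fix (A := A) (τ := τ) (v := fun _ => 0) (t := t) hT
    (fun i => hfixp i (e i) (he i)) (by
      rw [ht]
      funext j
      simp)
  obtain ⟨g, hg, rfl⟩ := hg0.exists_mem
  have hhM : Homotopic (surf S) (model S A τ)^[M] (F ^ (n * M) : X r k ≃ₜ X r k) := hh.pow M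
  set w : X r k := (z, t) with hw
  -- continuity of the coordinate
  have hc0 : Continuous fun p : X r k => p.1 i0 := (continuous_apply i0).comp continuous_fst
  have hc0t : Tendsto (fun p : X r k => p.1 i0) (𝓝 w) (𝓝 D.s) := by
    have h1 := hc0.tendsto w
    have h2 : w.1 i0 = D.s := hz0
    rwa [h2] at h1
  have hT0 : ∀ x, g (((modelHomeo S A hA.1 τ hτ.cont) ^ M) x) = g ((model S A τ)^[M] x) := by
    intro x
    rw [coe_modelHomeo_pow]
  have hcoord0 : ∀ x, (g (((modelHomeo S A hA.1 τ hτ.cont) ^ M) x)).1 i0 =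
      D.H^[e i0] (x.1 i0) := by
    intro x
    rw [hT0, hcoord, hH0]
  have hDs : D.H D.s = D.s := by
    have := (D.cone 1 Nat.one_pos).1
    simpa using this
  have hDc : Continuous D.H := by
    have := (D.cone 1 Nat.one_pos).2.1
    simpa using this
  obtain ⟨K, hKu, hKs⟩ := skew_model G hA hτ
  have hdu : ∀ x y : X r k, (G i0).du (x.1 i0) (y.1 i0) ≤ K.su x.1 y.1 := by
    intro x y
    rw [hKu]
    exact Finset.single_le_sum (f := fun i => (G i).du (x.1 i) (y.1 i))
      (fun i _ => (G i).du_nonneg _ _) (Finset.mem_univ i0)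
  have hds : ∀ x y : X r k, (G i0).ds (x.1 i0) (y.1 i0) ≤ K.ss x.1 y.1 := by
    intro x y
    rw [hKs]
    exact Finset.single_le_sum (f := fun i => (G i).ds (x.1 i) (y.1 i))
      (fun i _ => (G i).ds_nonneg _ _) (Finset.mem_univ i0)
  have hlarge : ∀ C ε : ℝ, 0 < ε → ∃ J0 : ℕ, ∀ J, J0 ≤ J → C < K.lam ^ J * ε := by
    intro C ε hε
    have h1 : Tendsto (fun J : ℕ => K.lam ^ J * ε) atTop atTop :=
      (tendsto_pow_atTop_atTop_of_one_lt K.one_lt).atTop_mul_const hε
    obtain ⟨J0, hJ0⟩ := (h1.eventually (eventually_gt_atTop C)).exists_forall_of_atTop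
    exact ⟨J0, hJ0⟩
  have hlampos : ∀ J : ℕ, 0 < K.lam ^ J := fun J => pow_pos (zero_lt_one.trans K.one_lt) J
  refine ⟨{
    n := D.n
    three_le := D.three_le
    w := w
    g := g
    mem := hg
    m := M
    m_pos := hMpos
    fixed := ?_
    XS := fun e => {p | p.1 i0 ∈ D.XS e}
    YS := fun e => {p | p.1 i0 ∈ D.YS e}
    adj := ?_
    closeX := ?_
    closeY := ?_
    invX := ?_
    invY := ?_
    count := ?_
    dense := ?_ }⟩
  · exact (hT0 w).trans hfix
  · exact hc0t.eventually D.adj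
  · obtain ⟨V, hV, hcl⟩ := D.closeX
    refine ⟨_, hc0t hV, fun e z' hz' hzX R => ?_⟩
    obtain ⟨ε, hε, hcl'⟩ := hcl e _ hz' hzX
    obtain ⟨C, hC⟩ := K.stretchU R
    obtain ⟨J0, hJ0⟩ := hlarge C ε hε
    refine ⟨J0, fun J hJ x hx hd => hcl' _ hx ?_⟩
    have h1 := hC J x z' hd
    have h2 := (h1.trans_lt (hJ0 J hJ))
    exact (hdu x z').trans_lt (lt_of_mul_lt_mul_left h2 (hlampos J).le)
  · obtain ⟨V, hV, hcl⟩ := D.closeY
    refine ⟨_, hc0t hV, fun e z' hz' hzX R => ?_⟩
    obtain ⟨ε, hε, hcl'⟩ := hcl e _ hz' hzX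
    obtain ⟨C, hC⟩ := K.stretchS R
    obtain ⟨J0, hJ0⟩ := hlarge C ε hε
    refine ⟨J0, fun J hJ x hx hd => hcl' _ hx ?_⟩
    have h1 := hC J x z' hd
    have h2 := (h1.trans_lt (hJ0 J hJ))
    exact (hds x z').trans_lt (lt_of_mul_lt_mul_left h2 (hlampos J).le)
  · have h1 : ∀ᶠ x in 𝓝 D.s, ∀ e', x ∈ D.XS e' ↔ D.H^[e i0] x ∈ D.XS e' := by
      have : NeZero D.n := ⟨by have := D.three_le; omega⟩
      rw [eventually_all]
      intro e'
      refine eventually_iterate hDs hDc ?_ _
      filter_upwards [D.invX] with x hx using hx e'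
    filter_upwards [hc0t.eventually h1] with x hx e'
    change x.1 i0 ∈ D.XS e' ↔ (g (((modelHomeo S A hA.1 τ hτ.cont) ^ M) x)).1 i0 ∈ D.XS e'
    rw [hcoord0]
    exact hx e'
  · have h1 : ∀ᶠ x in 𝓝 D.s, ∀ e', x ∈ D.YS e' ↔ D.H^[e i0] x ∈ D.YS e' := by
      have : NeZero D.n := ⟨by have := D.three_le; omega⟩
      rw [eventually_all]
      intro e'
      refine eventually_iterate hDs hDc ?_ _
      filter_upwards [D.invY] with x hx using hx e'
    filter_upwards [hc0t.eventually h1] with x hx e'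
    change x.1 i0 ∈ D.YS e' ↔ (g (((modelHomeo S A hA.1 τ hτ.cont) ^ M) x)).1 i0 ∈ D.YS e'
    rw [hcoord0]
    exact hx e'
  · intro j hj
    have hgd : IsDeck (surf S) k g := hg
    have h1 : (fun x => g (((F ^ n) ^ M) x)) = fun x => g ((F ^ (n * M)) x) := by
      funext x
      rw [pow_mul]
    change {q : X r k | (fun x => g (((F ^ n) ^ M) x))^[j] q = q}.encard ≤ _
    rw [h1]
    obtain ⟨gj, hgj, h2, h3⟩ := model_iterate_fix hhM hgd j
    have h4 : {q : X r k | (fun x => g ((F ^ (n * M)) x))^[j] q = q} =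
        {q | gj ((F ^ (n * M * j)) q) = q} := by
      ext q
      simp only [Set.mem_ofPred_eq]
      rw [h3]
    rw [h4]
    have hhj : Homotopic (surf S) (model S A τ)^[M * j] (F ^ (n * M * j) : X r k ≃ₜ X r k) := by
      rw [mul_assoc]
      exact hh.pow (M * j)
    have hfixj : (fun x => g ((model S A τ)^[M] x))^[j] w = w := Function.iterate_fixed hfix j
    have hcj : ∀ p i, (gj ((model S A τ)^[M * j] p)).1 i = ((H i)^[e i])^[j] (p.1 i) := by
      intro p i
      rw [← h2]
      exact coord_iterate hcoord j p i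
    have hMj : 0 < M * j := Nat.mul_pos hMpos hj
    obtain ⟨Φ, hΦ⟩ := exists_form_iterate hA hτ.cont hMj hgj hcj
    have hΦi : ∀ i, Φ.H i = (H i)^[e i * j] := by
      intro i
      rw [hΦ, Function.iterate_mul]
    refine hcount r k (surf S) F hF (n * M * j) (Nat.mul_pos (Nat.mul_pos hn hMpos) hj)
      (model S A τ)^[M * j] ((continuous_model S A hτ.cont).iterate _) hhj gj hgj
      (tame_model G hA hτ hMj hgj) Φ w ?_ D.n i0 D.three_le ?_ ?_
    · rw [← h2]; exact hfixj
    · intro i hi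
      rw [hΦi]
      exact hregp i hi _ (Nat.mul_pos (he i) hj)
    · rw [hΦi]
      exact hcone _ (Nat.mul_pos (he i0) hj)
  · intro e1 e2 hee V hV
    -- a product neighbourhood
    have hupd : Tendsto (fun x : ℍ × (Fin k → ℝ) => ((Function.update z i0 x.1, x.2) : X r k))
        (𝓝 (D.s, t)) (𝓝 w) := by
      have h0 : Continuous fun x : ℍ × (Fin k → ℝ) => Function.update z i0 x.1 :=
        Continuous.update (A := fun _ : Fin r => ℍ) continuous_const i0 continuous_fst
      have h1 : Continuous fun x : ℍ × (Fin k → ℝ) =>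
          ((Function.update z i0 x.1, x.2) : X r k) := h0.prodMk continuous_snd
      have h2 := h1.tendsto (D.s, t)
      have h3 : ((Function.update z i0 D.s, t) : X r k) = w := by
        rw [hw, ← hz0, Function.update_eq_self]
      simp only [] at h2
      rwa [h3] at h2
    have h1 := hupd hV
    rw [mem_map, nhds_prod_eq, mem_prod_iff] at h1
    obtain ⟨V1, hV1, V2, hV2, hsub⟩ := h1
    obtain ⟨ε, hε, hball⟩ := Metric.mem_nhds_iff.1 hV2
    obtain ⟨z1, hz1V, hzX, hzY, m', H', hm', hl', hr'⟩ := D.dense e1 e2 hee V1 hV1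
    obtain ⟨M0, hM0⟩ := torus_near hA (half_pos hε)
    -- the new data
    set m2 : Fin r → ℕ := Function.update m i0 m' with hm2_def
    set H2 : Fin r → ℍ → ℍ := Function.update H i0 H' with hH2_def
    set z2 : Fin r → ℍ := Function.update z i0 z1 with hz2_def
    have hm20 : m2 i0 = m' := Function.update_self ..
    have hH20 : H2 i0 = H' := Function.update_self ..
    have hz20 : z2 i0 = z1 := Function.update_self ..
    have hm21 : ∀ i, i ≠ i0 → m2 i = m i := fun i hi => Function.update_of_ne hi _ _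
    have hH21 : ∀ i, i ≠ i0 → H2 i = H i := fun i hi => Function.update_of_ne hi _ _
    have hz21 : ∀ i, i ≠ i0 → z2 i = z i := fun i hi => Function.update_of_ne hi _ _
    have hm2pos : ∀ i, 0 < m2 i := by
      intro i
      by_cases hi : i = i0
      · rw [hi, hm20]; exact hm'
      · rw [hm21 i hi]; exact hmpos i
    have hlift2 : ∀ i, IsLift (S i) (m2 i) (H2 i) := by
      intro i
      by_cases hi : i = i0
      · rw [hi, hm20, hH20]; exact hl'
      · rw [hm21 i hi, hH21 i hi]; exact hlift i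
    have hreg2 : ∀ i j, 0 < j → RegFixed (z2 i) (H2 i)^[j] := by
      intro i j hj
      by_cases hi : i = i0
      · rw [hi, hz20, hH20]; exact hr' j hj
      · rw [hz21 i hi, hH21 i hi]; exact hregp i hi j hj
    have hP2pos : 0 < ∏ i, m2 i := Finset.prod_pos fun i _ => hm2pos i
    obtain ⟨f, hf, hT2⟩ := exists_lifts hm2pos hlift2 (Nat.succ_pos M0)
    set M2 := (∏ i, m2 i) * (M0 + 1) with hM2
    have hM2pos : 0 < M2 := Nat.mul_pos hP2pos (Nat.succ_pos M0)
    have hM2le : M0 ≤ M2 := (Nat.le_succ M0).trans (Nat.le_mul_of_pos_left _ hP2pos)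
    obtain ⟨v, t', ht', hfix'⟩ := hM0 M2 hM2le hM2pos
      ((model S A τ)^[M2] (z2, (0 : Fin k → ℝ))).2 t
    obtain ⟨g1, hg1, hfix1, hcoord1⟩ := exists_fix (A := A) (τ := τ) hT2
      (fun i => (hreg2 i (f i) (hf i)).1) hfix'
    obtain ⟨Φ, hΦ⟩ := exists_form_iterate hA hτ.cont hM2pos hg1 hcoord1
    have hΦi : ∀ i, Φ.H i = (H2 i)^[f i] := fun i => by rw [hΦ]
    obtain ⟨q, hq⟩ := hreg r k (surf S) F hF (n * M2) (Nat.mul_pos hn hM2pos)
      (model S A τ)^[M2] ((continuous_model S A hτ.cont).iterate _) (hh.pow M2) g1 hg1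
      (tame_model G hA hτ hM2pos hg1) Φ (z2, t') hfix1 (fun i => by
        rw [hΦi]
        exact hreg2 i _ (hf i))
    obtain ⟨g2, hg2, rfl⟩ := hg1.exists_mem
    refine ⟨(z2, t'), ?_, ?_, ?_, g2, hg2, M2, hM2pos, ?_, q, ?_⟩
    · have h2 : (z1, t') ∈ V1 ×ˢ V2 := by
        refine ⟨hz1V, hball ?_⟩
        rw [Metric.mem_ball, dist_eq_norm]
        linarith
      exact hsub h2
    · change z2 i0 ∈ D.XS e1
      rw [hz20]; exact hzX
    · change z2 i0 ∈ D.YS e2
      rw [hz20]; exact hzY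
    · change g2 (((modelHomeo S A hA.1 τ hτ.cont) ^ M2) (z2, t')) = (z2, t')
      rw [coe_modelHomeo_pow]
      exact hfix1
    · change g2 (((F ^ n) ^ M2) q) = q
      rw [← pow_mul]
      exact hq

/-- The statement for pseudo-Anosov factors, from the statements of the modules. -/
theorem paStatement (hGeo : PAGeoStatement) (hidx : IndexStatement) (hreg : RegularStatement)
    (hcount : CountStatement) : PAStatement := by
  intro r k hr S hS A hA τ hτ F hF n hn hh
  have h1 : ∀ i, Nonempty (PAGeo (S i)) := by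
    intro i
    obtain ⟨q, l, h⟩ := hS i
    exact hGeo (S i) q l h
  let G : ∀ i, PAGeo (S i) := fun i => (h1 i).some
  obtain ⟨L⟩ := exists_local hr G hA hτ F hF n hn hh hidx hreg hcount
  exact Core.Local.coreStatement _ _ L

end Pool.Agent.ANO2
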