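import Pool.Agent.ANO2.Prod.Model
import Pool.Agent.ANO.Idx.ModelF

/-!
# ANO phase 2: lifts of powers of the surface maps and of the model (package ANO2-P5)

* `IsLift.iterate`: `T^j` is a lift of `f^(n j)` if `T` is a lift of `f^n`: `T = γ f^n`;
  `f (γ z) = γ' f z` (`normalizes`), so `f^n γ = γ'' f^n`.  Compare `Pool/Agent/ANO/Cone/Lift.lean`.
* `model_fst`, `model_snd`: `((model S A τ)^[m] p).1 i = (S i).f^[m] (p.1 i)`, and
  `((model S A τ)^[m] p).2 = A^m p.2 + ((model S A τ)^[m] (p.1, 0)).2` (induction on `m`).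
* `lift_prod`: given lifts `T i` of `(S i).f^m` and `v : ℤ^k` there is a deck transformation `g` with
  `g (model^m p) = (T i (p.1 i), (model^m p).2 + v)`.
* `exists_form`: `g (model^m p) = (H i (p.1 i), A^m p.2 + β p.1)` with
  `β z = (model^m (z, 0)).2 + v` continuous; `Pool.Agent.ANO.Idx.hyperbolic_pow` gives `hyp`; `H i` is a
  lift of `(S i).f^m`.
* `form_H`: the functions `H i` of a `Form` are determined by `T₀` (evaluate at
  `(Function.update w.1 i z, w.2)`).
* `lift_surj`, `lift_continuous`: a lift of `f^n` is continuous.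
-/

set_option autoImplicit false

open Set Filter Topology
open scoped UpperHalfPlane MatrixGroups

namespace Pool.Agent.ANO2

open Pool.Agent.ANO

variable {r k : ℕ} {S : Fin r → SurfaceMap} {A : Matrix (Fin k) (Fin k) ℤ}
  {τ : (Fin r → ℍ) → (Fin k → ℝ)}

/-- `f ^ n γ = γ' f ^ n` -/
private theorem iter_smul_Lifts (S : SurfaceMap) (n : ℕ) {γ : SL(2, ℝ)} (hγ : γ ∈ S.Γ) :
    ∃ γ' ∈ S.Γ, ∀ z : ℍ, S.f^[n] (γ • z) = γ' • (S.f^[n] z) := by
  induction n generalizing γ with
  | zero => exact ⟨γ, hγ, fun z => rfl⟩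
  | succ n ih =>
    obtain ⟨γ₁, h₁, h⟩ := S.normalizes γ hγ
    obtain ⟨γ', h', hh⟩ := ih h₁
    refine ⟨γ', h', fun z => ?_⟩
    rw [Function.iterate_succ_apply, h, hh, Function.iterate_succ_apply]

private theorem comp_Lifts {S : SurfaceMap} {n n' : ℕ} {T T' : ℍ → ℍ} (h : IsLift S n T)
    (h' : IsLift S n' T') : IsLift S (n + n') (T ∘ T') := by
  obtain ⟨γ, hγ, h⟩ := h
  obtain ⟨γ', hγ', h'⟩ := h'
  obtain ⟨γ'', hγ'', h''⟩ := iter_smul_Lifts S n hγ'
  refine ⟨γ * γ'', mul_mem hγ hγ'', fun z => ?_⟩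
  rw [Function.comp_apply, h, h', h'', mul_smul, Function.iterate_add_apply]

theorem IsLift.iterate {S : SurfaceMap} {n : ℕ} {T : ℍ → ℍ} (h : IsLift S n T) (j : ℕ) :
    IsLift S (n * j) T^[j] := by
  induction j with
  | zero => exact ⟨1, one_mem _, fun z => by simp⟩
  | succ j ih =>
    rw [Nat.mul_succ, Function.iterate_succ]
    exact comp_Lifts ih h

theorem IsLift.continuous {S : SurfaceMap} {n : ℕ} {T : ℍ → ℍ} (h : IsLift S n T) :
    Continuous T := by
  obtain ⟨γ, hγ, h⟩ := h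
  have h1 : T = fun z => γ • S.f^[n] z := funext h
  rw [h1]
  exact (S.f.continuous.iterate n).const_smul γ

theorem model_fst (m : ℕ) (p : X r k) (i : Fin r) :
    ((model S A τ)^[m] p).1 i = (S i).f^[m] (p.1 i) := by
  induction m with
  | zero => rfl
  | succ m ih =>
    rw [Function.iterate_succ_apply', Function.iterate_succ_apply', ← ih]
    rfl

private theorem map_pow_Lifts (A : Matrix (Fin k) (Fin k) ℤ) (n : ℕ) :
    (A ^ n).map (Int.cast : ℤ → ℝ) = (A.map (Int.cast : ℤ → ℝ)) ^ n :=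
  map_pow (Int.castRingHom ℝ).mapMatrix A n

theorem model_snd (m : ℕ) (p : X r k) : ((model S A τ)^[m] p).2 =
    ((A ^ m).map (Int.cast : ℤ → ℝ)).mulVec p.2 + ((model S A τ)^[m] (p.1, 0)).2 := by
  induction m with
  | zero =>
    rw [map_pow_Lifts, pow_zero, Matrix.one_mulVec]
    exact (add_zero p.2).symm
  | succ m ih =>
    rw [Function.iterate_succ_apply', Function.iterate_succ_apply']
    have h1 : ((model S A τ)^[m] p).1 = ((model S A τ)^[m] (p.1, 0)).1 := by
      funext i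
      rw [model_fst, model_fst]
    have h2 : ∀ w : X r k, (model S A τ w).2 =
        (A.map (Int.cast : ℤ → ℝ)).mulVec w.2 + τ w.1 := fun w => rfl
    rw [h2, h2, ih, h1, Matrix.mulVec_add, Matrix.mulVec_mulVec, add_assoc, map_pow_Lifts,
      map_pow_Lifts, ← pow_succ']

theorem lift_prod {m : ℕ} {T : Fin r → ℍ → ℍ} (h : ∀ i, IsLift (S i) m (T i))
    (v : Fin k → ℤ) : ∃ g : X r k → X r k, IsDeck (surf S) k g ∧ ∀ p, g ((model S A τ)^[m] p) =
      (fun i => T i (p.1 i), fun j => ((model S A τ)^[m] p).2 j + v j) := by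
  choose γ hγ hT using h
  refine ⟨fun q => (fun i => γ i • q.1 i, fun j => q.2 j + v j), ⟨γ, v, hγ, fun q => rfl⟩,
    fun p => ?_⟩
  refine Prod.ext (funext fun i => ?_) rfl
  change γ i • ((model S A τ)^[m] p).1 i = T i (p.1 i)
  rw [hT, model_fst]

theorem exists_form (hA : IsHyperbolicMatrix A) (hτ : Continuous τ) {m : ℕ} (hm : 0 < m)
    {g : X r k → X r k} (hg : IsDeck (surf S) k g) :
    ∃ Φ : Form (g ∘ (model S A τ)^[m]), ∀ i, IsLift (S i) m (Φ.H i) := by
  obtain ⟨γ, v, hγ, hgv⟩ := hg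
  have hm1 : Continuous (model S A τ)^[m] := (continuous_model S A hτ).iterate m
  have hβ : Continuous fun z : Fin r → ℍ =>
      (fun j => ((model S A τ)^[m] (z, 0)).2 j + (v j : ℝ) : Fin k → ℝ) := by
    have h1 : Continuous fun z : Fin r → ℍ => ((model S A τ)^[m] ((z, 0) : X r k)).2 :=
      continuous_snd.comp (hm1.comp (continuous_id.prodMk continuous_const))
    exact h1.add continuous_const
  refine ⟨⟨fun i z => γ i • (S i).f^[m] z,
    (Matrix.mulVecLin ((A ^ m).map (Int.cast : ℤ → ℝ))).toContinuousLinearMap,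
    fun z => (fun j => ((model S A τ)^[m] (z, 0)).2 j + (v j : ℝ) : Fin k → ℝ), hβ, ?_, ?_⟩, ?_⟩
  · intro u hu
    exact Idx.hyperbolic_pow hA hm hu
  · intro p
    rw [Function.comp_apply, hgv]
    refine Prod.ext (funext fun i => ?_) (funext fun j => ?_)
    · change γ i • ((model S A τ)^[m] p).1 i = γ i • (S i).f^[m] (p.1 i)
      rw [model_fst]
    · change ((model S A τ)^[m] p).2 j + (v j : ℝ) =
        ((A ^ m).map (Int.cast : ℤ → ℝ)).mulVec p.2 j +
          (((model S A τ)^[m] (p.1, 0)).2 j + (v j : ℝ))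
      rw [model_snd m p, Pi.add_apply, add_assoc]
  · intro i
    exact ⟨γ i, hγ i, fun z => rfl⟩

theorem form_H {T₀ : X r k → X r k} (Φ : Form T₀) {i : Fin r} {T : ℍ → ℍ}
    (h : ∀ p, (T₀ p).1 i = T (p.1 i)) : Φ.H i = T := by
  funext z
  have h1 := h (fun _ => z, 0)
  rw [Φ.form] at h1
  exact h1

end Pool.Agent.ANO2
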