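import Pool.Agent.ANO2.Prod.Skew
import Pool.Agent.ANO.Cone.LinA

/-!
# ANO phase 2: the lifts of powers of the model are skew products (package ANO2-P3)

* `tau_coarse`: there is a compact `K ⊆ ℍ^r` such that every `z : Fin r → ℍ` has a translate
  `γ z ∈ K`, `γ i ∈ (S i).Γ` (`(S i).cocompact`, `isCompact_univ_pi`).  Given `R` the closed `R`-thickening
  `K'` of `K` is compact (`ProperSpace (Fin r → ℍ)`; contained in a closed ball), so `‖τ‖ ≤ C` on `K'`.  If
  `dist z z' ≤ R` and `γ z ∈ K`, then `dist (γ z) (γ z') = dist z z'` (`γ` is an isometry of every factor,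
  `isometry_smul`; `dist_pi_le_iff`), so `γ z' ∈ K'`, and `τ (γ z) - τ (γ z') = τ z - τ z'` by
  `hτ.equivar γ` (the same `v`).  So `‖τ z - τ z'‖ ≤ 2 C`.
* `surf_coarse`: `dist (f^m x) (f^m y)` is bounded for `dist x y ≤ R` (`f^m` on every factor; `du`, `ds`,
  `upper`, `du_f`, `ds_f`, `proper`), for the surface part of `model`.
* `model_twist`: by induction on `m`.  `(model^(m+1) x).2 = A (model^m x).2 + τ ((model^m x).1)`, so with
  `E_m = (model^m x).2 - (model^m y).2 - A^m (x.2 - y.2)` one has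
  `E_(m+1) = A E_m + τ ((model^m x).1) - τ ((model^m y).1)`; `‖A v‖ ≤ a ‖v‖`.
* `exists_skew`: `su x y = ∑ i, (G i).du (x i) (y i)`, `ss` the same; `lam > 1` with `lam ≤ (G i).l` for all
  `i` and `lam ≤ L.lam` (a finite minimum, see `Cone/Prod.lean` of phase 1, `exists_lam`); `NU`, `NS` from
  `L : LinGeo A` (`Cone.exists_linGeo A hA`); `B = A^m` (`Matrix.mulVecLin`).  `g` is `(γ_i, v)`:
  invariance of `du`, `ds` under `γ_i`; the translation by `v` drops out of differences.  `m ≥ 1`, so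
  `lam ≤ lam^m`.  `upper`, `proper`: finitely many factors; `dist (x i) (y i) ≤ dist x y`
  (`dist_le_pi_dist`) and `dist_pi_le_iff`.  Compare the definition `geomOf` in
  `Pool/Agent/ANO/Cone/Prod.lean`.  We also record what `su`, `ss` are.
-/

set_option autoImplicit false

open Set Filter Topology
open scoped UpperHalfPlane MatrixGroups

namespace Pool.Agent.ANO2

open Pool.Agent.ANO

variable {r k : ℕ} {S : Fin r → SurfaceMap} {A : Matrix (Fin k) (Fin k) ℤ}
  {τ : (Fin r → ℍ) → (Fin k → ℝ)}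

private theorem model_fst_SkewModel (S : Fin r → SurfaceMap) (A : Matrix (Fin k) (Fin k) ℤ)
    (τ : (Fin r → ℍ) → (Fin k → ℝ)) (p : X r k) (i : Fin r) :
    (model S A τ p).1 i = (S i).f (p.1 i) := rfl

private theorem model_snd_SkewModel (S : Fin r → SurfaceMap) (A : Matrix (Fin k) (Fin k) ℤ)
    (τ : (Fin r → ℍ) → (Fin k → ℝ)) (p : X r k) :
    (model S A τ p).2 = (A.map (Int.cast : ℤ → ℝ)).mulVec p.2 + τ p.1 := rfl

theorem tau_coarse (hτ : IsTwist (surf S) τ) (R : ℝ) : ∃ C : ℝ, ∀ z z' : Fin r → ℍ,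
    dist z z' ≤ R → ‖τ z - τ z'‖ ≤ C := by
  choose K hK hcov using fun i => (S i).cocompact
  have hKp : IsCompact (Set.pi univ K) := isCompact_univ_pi hK
  have hK' : IsCompact (Metric.cthickening R (Set.pi univ K)) := hKp.cthickening
  obtain ⟨C, hC⟩ := hK'.exists_bound_of_continuousOn hτ.cont.continuousOn
  refine ⟨C + C, fun z z' hzz => ?_⟩
  choose γ hγ hγK using fun i => hcov i (z i)
  have hR : 0 ≤ R := dist_nonneg.trans hzz
  have hw : (fun i => γ i • z i) ∈ Set.pi univ K := fun i _ => hγK i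
  have hd : dist (fun i => γ i • z' i) (fun i => γ i • z i) ≤ R := by
    refine (dist_pi_le_iff hR).2 fun i => ?_
    rw [dist_smul, dist_comm]
    exact (dist_le_pi_dist z z' i).trans hzz
  have h1 : (fun i => γ i • z i) ∈ Metric.cthickening R (Set.pi univ K) :=
    Metric.self_subset_cthickening _ hw
  have h2 : (fun i => γ i • z' i) ∈ Metric.cthickening R (Set.pi univ K) :=
    Metric.mem_cthickening_of_dist_le _ _ R _ hw hd
  obtain ⟨v, hv⟩ := hτ.equivar γ hγ
  have h3 : τ z - τ z' = τ (fun i => γ i • z i) - τ (fun i => γ i • z' i) := by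
    rw [hv, hv]
    funext j
    simp
  rw [h3]
  exact (norm_sub_le _ _).trans (add_le_add (hC _ h1) (hC _ h2))

private theorem surf_step_SkewModel (G : ∀ i, PAGeo (S i)) (R : ℝ) : ∃ C : ℝ, ∀ x y : X r k,
    dist x.1 y.1 ≤ R → dist (model S A τ x).1 (model S A τ y).1 ≤ C := by
  choose C hC using fun i => (G i).upper R
  choose D hD using fun i => (G i).proper ((G i).l * |C i|)
  refine ⟨∑ i, |D i|, fun x y h => ?_⟩
  refine (dist_pi_le_iff (Finset.sum_nonneg fun i _ => abs_nonneg _)).2 fun i => ?_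
  rw [model_fst_SkewModel, model_fst_SkewModel]
  have h1 := hC i (x.1 i) (y.1 i) ((dist_le_pi_dist x.1 y.1 i).trans h)
  have hl := (G i).one_lt
  have h0 := abs_nonneg (C i)
  have h2 : (G i).du ((S i).f (x.1 i)) ((S i).f (y.1 i)) ≤ (G i).l * |C i| := by
    rw [(G i).du_f]
    exact mul_le_mul_of_nonneg_left (h1.1.trans (le_abs_self _)) (by linarith)
  have h3 : (G i).ds ((S i).f (x.1 i)) ((S i).f (y.1 i)) ≤ (G i).l * |C i| := by
    have h4 := (G i).ds_f (x.1 i) (y.1 i)
    have h5 := (G i).ds_nonneg ((S i).f (x.1 i)) ((S i).f (y.1 i))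
    have h6 := h1.2.trans (le_abs_self _)
    nlinarith
  refine (hD i _ _ h2 h3).trans ((le_abs_self _).trans ?_)
  exact Finset.single_le_sum (f := fun i => |D i|) (fun i _ => abs_nonneg _) (Finset.mem_univ i)

theorem surf_coarse (G : ∀ i, PAGeo (S i)) (m : ℕ) (R : ℝ) : ∃ C : ℝ, ∀ x y : X r k,
    dist x.1 y.1 ≤ R → dist ((model S A τ)^[m] x).1 ((model S A τ)^[m] y).1 ≤ C := by
  induction m with
  | zero => exact ⟨R, fun x y h => h⟩
  | succ m ih =>
    obtain ⟨C, hC⟩ := ih
    obtain ⟨D, hD⟩ := surf_step_SkewModel (k := k) (A := A) (τ := τ) G C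
    refine ⟨D, fun x y h => ?_⟩
    rw [Function.iterate_succ_apply', Function.iterate_succ_apply']
    exact hD _ _ (hC x y h)

private theorem pow_map_SkewModel (A : Matrix (Fin k) (Fin k) ℤ) (m : ℕ) (v : Fin k → ℝ) :
    ((A ^ (m + 1)).map (Int.cast : ℤ → ℝ)).mulVec v =
      (A.map (Int.cast : ℤ → ℝ)).mulVec (((A ^ m).map (Int.cast : ℤ → ℝ)).mulVec v) := by
  have h1 : (A ^ (m + 1)).map (Int.cast : ℤ → ℝ) =
      A.map (Int.cast : ℤ → ℝ) * (A ^ m).map (Int.cast : ℤ → ℝ) := by
    rw [pow_succ']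
    exact Matrix.map_mul (f := Int.castRingHom ℝ)
  rw [h1, Matrix.mulVec_mulVec]

private theorem zero_map_SkewModel (A : Matrix (Fin k) (Fin k) ℤ) (v : Fin k → ℝ) :
    ((A ^ 0).map (Int.cast : ℤ → ℝ)).mulVec v = v := by
  have h1 : (A ^ 0).map (Int.cast : ℤ → ℝ) = 1 := by
    rw [pow_zero]
    exact Matrix.map_one _ Int.cast_zero Int.cast_one
  rw [h1, Matrix.one_mulVec]

theorem model_twist (G : ∀ i, PAGeo (S i)) (hτ : IsTwist (surf S) τ) (m : ℕ) (R : ℝ) :
    ∃ C : ℝ, ∀ x y : X r k, dist x.1 y.1 ≤ R →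
      ‖((model S A τ)^[m] x).2 - ((model S A τ)^[m] y).2 -
        ((A ^ m).map (Int.cast : ℤ → ℝ)).mulVec (x.2 - y.2)‖ ≤ C := by
  induction m with
  | zero =>
    refine ⟨0, fun x y _ => ?_⟩
    rw [zero_map_SkewModel, Function.iterate_zero_apply, Function.iterate_zero_apply, sub_self,
      norm_zero]
  | succ m ih =>
    obtain ⟨C, hC⟩ := ih
    obtain ⟨D, hD⟩ := surf_coarse (k := k) (A := A) (τ := τ) G m R
    obtain ⟨C', hC'⟩ := tau_coarse hτ D
    set L : (Fin k → ℝ) →L[ℝ] (Fin k → ℝ) :=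
      (A.map (Int.cast : ℤ → ℝ)).mulVecLin.toContinuousLinearMap with hL
    refine ⟨‖L‖ * C + C', fun x y h => ?_⟩
    set X := (model S A τ)^[m] x with hX
    set Y := (model S A τ)^[m] y with hY
    rw [Function.iterate_succ_apply', Function.iterate_succ_apply', ← hX, ← hY,
      model_snd_SkewModel, model_snd_SkewModel, pow_map_SkewModel]
    have h1 : (A.map (Int.cast : ℤ → ℝ)).mulVec X.2 + τ X.1 -
        ((A.map (Int.cast : ℤ → ℝ)).mulVec Y.2 + τ Y.1) -
        (A.map (Int.cast : ℤ → ℝ)).mulVec (((A ^ m).map (Int.cast : ℤ → ℝ)).mulVec (x.2 - y.2)) =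
        L (X.2 - Y.2 - ((A ^ m).map (Int.cast : ℤ → ℝ)).mulVec (x.2 - y.2)) +
          (τ X.1 - τ Y.1) := by
      have h2 : ∀ v, L v = (A.map (Int.cast : ℤ → ℝ)).mulVec v := fun v => rfl
      rw [map_sub, map_sub, h2, h2, h2]
      abel
    rw [h1]
    refine (norm_add_le _ _).trans (add_le_add ?_ (hC' _ _ (hD x y h)))
    exact (L.le_opNorm _).trans (mul_le_mul_of_nonneg_left (hC x y h) (norm_nonneg _))

private theorem model_exact_SkewModel (m : ℕ) (x y : X r k) (h : x.1 = y.1) :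
    ((model S A τ)^[m] x).1 = ((model S A τ)^[m] y).1 ∧
      ((model S A τ)^[m] x).2 - ((model S A τ)^[m] y).2 =
        ((A ^ m).map (Int.cast : ℤ → ℝ)).mulVec (x.2 - y.2) := by
  induction m with
  | zero =>
    rw [zero_map_SkewModel]
    exact ⟨h, rfl⟩
  | succ m ih =>
    obtain ⟨h1, h2⟩ := ih
    rw [Function.iterate_succ_apply', Function.iterate_succ_apply', model_snd_SkewModel,
      model_snd_SkewModel, pow_map_SkewModel, ← h2, h1, Matrix.mulVec_sub]
    refine ⟨?_, by abel⟩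
    funext i
    rw [model_fst_SkewModel, model_fst_SkewModel, h1]

private theorem exists_lam_SkewModel (G : ∀ i, PAGeo (S i)) (L : Cone.LinGeo A) :
    ∃ lam : ℝ, 1 < lam ∧ lam ≤ L.lam ∧ ∀ i, lam ≤ (G i).l := by
  have h : ∀ T : Finset (Fin r), ∃ lam : ℝ, 1 < lam ∧ lam ≤ L.lam ∧ ∀ i ∈ T, lam ≤ (G i).l := by
    intro T
    induction T using Finset.induction_on with
    | empty => exact ⟨L.lam, L.one_lt, le_rfl, fun i hi => absurd hi (Finset.notMem_empty i)⟩
    | insert a T _ ih =>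
      obtain ⟨lam, h1, h2, h3⟩ := ih
      refine ⟨min lam (G a).l, lt_min h1 (G a).one_lt, (min_le_left _ _).trans h2, ?_⟩
      intro i hi
      rcases Finset.mem_insert.1 hi with rfl | hi
      · exact min_le_right _ _
      · exact (min_le_left _ _).trans (h3 i hi)
  obtain ⟨lam, h1, h2, h3⟩ := h Finset.univ
  exact ⟨lam, h1, h2, fun i => h3 i (Finset.mem_univ i)⟩

/-- From one step to a positive number of steps. -/
private theorem iter_SkewModel {α : Type} {f : α → α} {P : α → ℝ} (h0 : ∀ a, 0 ≤ P a) {lam : ℝ}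
    (hl : 1 < lam) (h : ∀ a, lam * P a ≤ P (f a)) {m : ℕ} (hm : 0 < m) (a : α) :
    lam * P a ≤ P (f^[m] a) := by
  obtain ⟨n, rfl⟩ : ∃ n, m = n + 1 := ⟨m - 1, by omega⟩
  clear hm
  induction n with
  | zero => exact h a
  | succ n ih =>
    rw [Function.iterate_succ_apply']
    have h1 := h (f^[n + 1] a)
    have h2 := h0 (f^[n + 1] a)
    nlinarith

private theorem iter'_SkewModel {α : Type} {f : α → α} {P : α → ℝ} (h0 : ∀ a, 0 ≤ P a) {lam : ℝ}
    (hl : 1 < lam) (h : ∀ a, lam * P (f a) ≤ P a) {m : ℕ} (hm : 0 < m) (a : α) :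
    lam * P (f^[m] a) ≤ P a := by
  obtain ⟨n, rfl⟩ : ∃ n, m = n + 1 := ⟨m - 1, by omega⟩
  clear hm
  induction n with
  | zero => exact h a
  | succ n ih =>
    rw [Function.iterate_succ_apply']
    have h1 := h (f^[n + 1] a)
    have h2 := h0 (f^[n + 1] a)
    nlinarith

private theorem mulVec_iter_SkewModel (A : Matrix (Fin k) (Fin k) ℤ) (m : ℕ) (v : Fin k → ℝ) :
    ((A ^ m).map (Int.cast : ℤ → ℝ)).mulVec v =
      (fun w => (A.map (Int.cast : ℤ → ℝ)).mulVec w)^[m] v := by
  induction m with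
  | zero => exact zero_map_SkewModel A v
  | succ m ih => rw [pow_map_SkewModel, ih, Function.iterate_succ_apply']

private theorem pair_iter_SkewModel {α : Type} (f : α → α) (m : ℕ) (x y : α) :
    (fun p : α × α => (f p.1, f p.2))^[m] (x, y) = (f^[m] x, f^[m] y) := by
  induction m with
  | zero => rfl
  | succ m ih => rw [Function.iterate_succ_apply', ih, Function.iterate_succ_apply',
      Function.iterate_succ_apply']

theorem exists_skew (G : ∀ i, PAGeo (S i)) (hA : IsHyperbolicMatrix A) (hτ : IsTwist (surf S) τ)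
    {m : ℕ} (hm : 0 < m) {g : X r k → X r k} (hg : IsDeck (surf S) k g) :
    ∃ K : Skew (g ∘ (model S A τ)^[m]), (K.su = fun x y => ∑ i, (G i).du (x i) (y i)) ∧
      (K.ss = fun x y => ∑ i, (G i).ds (x i) (y i)) := by
  obtain ⟨L⟩ := Cone.exists_linGeo A hA
  obtain ⟨lam, hl1, hlL, hlG⟩ := exists_lam_SkewModel G L
  obtain ⟨γ, v, hγ, hgv⟩ := hg
  have hg1 : ∀ (p : X r k) i, (g p).1 i = γ i • p.1 i := fun p i => by rw [hgv]
  have hg2 : ∀ p q : X r k, (g p).2 - (g q).2 = p.2 - q.2 := fun p q => by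
    rw [hgv, hgv]
    funext j
    simp
  have hsu0 : ∀ p : X r k × X r k, 0 ≤ ∑ i, (G i).du (p.1.1 i) (p.2.1 i) := fun p =>
    Finset.sum_nonneg fun i _ => (G i).du_nonneg _ _
  have hss0 : ∀ p : X r k × X r k, 0 ≤ ∑ i, (G i).ds (p.1.1 i) (p.2.1 i) := fun p =>
    Finset.sum_nonneg fun i _ => (G i).ds_nonneg _ _
  have hsu : ∀ x y : X r k, lam * ∑ i, (G i).du (x.1 i) (y.1 i) ≤
      ∑ i, (G i).du (((g ∘ (model S A τ)^[m]) x).1 i) (((g ∘ (model S A τ)^[m]) y).1 i) := by
    intro x y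
    have h1 := iter_SkewModel (f := fun p : X r k × X r k => (model S A τ p.1, model S A τ p.2))
      (P := fun p => ∑ i, (G i).du (p.1.1 i) (p.2.1 i)) hsu0 hl1 (fun p => by
        simp only [model_fst_SkewModel]
        rw [Finset.mul_sum]
        refine Finset.sum_le_sum fun i _ => ?_
        rw [(G i).du_f]
        exact mul_le_mul_of_nonneg_right (hlG i) ((G i).du_nonneg _ _)) hm (x, y)
    rw [pair_iter_SkewModel] at h1
    refine h1.trans (le_of_eq ?_)
    refine Finset.sum_congr rfl fun i _ => ?_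
    simp only [Function.comp_apply, hg1]
    rw [(G i).du_inv _ (hγ i)]
  have hss : ∀ x y : X r k, lam *
      ∑ i, (G i).ds (((g ∘ (model S A τ)^[m]) x).1 i) (((g ∘ (model S A τ)^[m]) y).1 i) ≤
      ∑ i, (G i).ds (x.1 i) (y.1 i) := by
    intro x y
    have h1 := iter'_SkewModel (f := fun p : X r k × X r k => (model S A τ p.1, model S A τ p.2))
      (P := fun p => ∑ i, (G i).ds (p.1.1 i) (p.2.1 i)) hss0 hl1 (fun p => by
        simp only [model_fst_SkewModel]
        rw [Finset.mul_sum]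
        refine Finset.sum_le_sum fun i _ => ?_
        rw [← (G i).ds_f (p.1.1 i) (p.2.1 i)]
        exact mul_le_mul_of_nonneg_right (hlG i) ((G i).ds_nonneg _ _)) hm (x, y)
    rw [pair_iter_SkewModel] at h1
    refine le_trans (le_of_eq ?_) h1
    congr 1
    refine Finset.sum_congr rfl fun i _ => ?_
    simp only [Function.comp_apply, hg1]
    rw [(G i).ds_inv _ (hγ i)]
  have hNU : ∀ w, lam * L.NU w ≤ L.NU (((A ^ m).map (Int.cast : ℤ → ℝ)).mulVec w) := by
    intro w
    rw [mulVec_iter_SkewModel]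
    exact iter_SkewModel L.NU_nonneg hl1 (fun a =>
      (mul_le_mul_of_nonneg_right hlL (L.NU_nonneg _)).trans (L.NU_A a)) hm w
  have hNS : ∀ w, lam * L.NS (((A ^ m).map (Int.cast : ℤ → ℝ)).mulVec w) ≤ L.NS w := by
    intro w
    rw [mulVec_iter_SkewModel]
    exact iter'_SkewModel L.NS_nonneg hl1 (fun a =>
      (mul_le_mul_of_nonneg_right hlL (L.NS_nonneg _)).trans (L.NS_A a)) hm w
  have hdu1 : ∀ (x y : Fin r → ℍ) i, (G i).du (x i) (y i) ≤ ∑ i, (G i).du (x i) (y i) :=
    fun x y i => Finset.single_le_sum (f := fun i => (G i).du (x i) (y i))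
      (fun i _ => (G i).du_nonneg _ _) (Finset.mem_univ i)
  have hds1 : ∀ (x y : Fin r → ℍ) i, (G i).ds (x i) (y i) ≤ ∑ i, (G i).ds (x i) (y i) :=
    fun x y i => Finset.single_le_sum (f := fun i => (G i).ds (x i) (y i))
      (fun i _ => (G i).ds_nonneg _ _) (Finset.mem_univ i)
  refine ⟨{
    su := fun x y => ∑ i, (G i).du (x i) (y i)
    ss := fun x y => ∑ i, (G i).ds (x i) (y i)
    su_nonneg := fun x y => Finset.sum_nonneg fun i _ => (G i).du_nonneg _ _
    ss_nonneg := fun x y => Finset.sum_nonneg fun i _ => (G i).ds_nonneg _ _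
    su_symm := fun x y => Finset.sum_congr rfl fun i _ => (G i).du_symm _ _
    ss_symm := fun x y => Finset.sum_congr rfl fun i _ => (G i).ds_symm _ _
    su_triangle := fun x y z => by
      rw [← Finset.sum_add_distrib]
      exact Finset.sum_le_sum fun i _ => (G i).du_triangle _ _ _
    ss_triangle := fun x y z => by
      rw [← Finset.sum_add_distrib]
      exact Finset.sum_le_sum fun i _ => (G i).ds_triangle _ _ _
    lam := lam
    one_lt := hl1
    su_T := hsu
    ss_T := hss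
    upper := fun R => by
      choose C hC using fun i => (G i).upper R
      refine ⟨∑ i, C i, fun x y h => ⟨?_, ?_⟩⟩
      · exact Finset.sum_le_sum fun i _ => (hC i _ _ ((dist_le_pi_dist x y i).trans h)).1
      · exact Finset.sum_le_sum fun i _ => (hC i _ _ ((dist_le_pi_dist x y i).trans h)).2
    proper := fun R => by
      choose C hC using fun i => (G i).proper R
      refine ⟨∑ i, |C i|, fun x y h h' => ?_⟩
      refine (dist_pi_le_iff (Finset.sum_nonneg fun i _ => abs_nonneg _)).2 fun i => ?_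
      refine (hC i _ _ ((hdu1 x y i).trans h) ((hds1 x y i).trans h')).trans
        ((le_abs_self _).trans ?_)
      exact Finset.single_le_sum (f := fun i => |C i|) (fun i _ => abs_nonneg _)
        (Finset.mem_univ i)
    eq_of_zero := fun x y h h' => by
      funext i
      refine (G i).eq_of_zero _ _ ?_ ?_
      · exact le_antisymm ((hdu1 x y i).trans h.le) ((G i).du_nonneg _ _)
      · exact le_antisymm ((hds1 x y i).trans h'.le) ((G i).ds_nonneg _ _)
    B := ((A ^ m).map (Int.cast : ℤ → ℝ)).mulVecLin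
    NU := L.NU
    NS := L.NS
    NU_nonneg := L.NU_nonneg
    NS_nonneg := L.NS_nonneg
    NU_neg := L.NU_neg
    NS_neg := L.NS_neg
    NU_add := L.NU_add
    NS_add := L.NS_add
    NU_B := hNU
    NS_B := hNS
    Nupper := L.upper
    Nlower := L.lower
    twist := fun R => by
      obtain ⟨C, hC⟩ := model_twist (A := A) G hτ m R
      refine ⟨C, fun x y h => ?_⟩
      simp only [Function.comp_apply, hg2]
      exact hC x y h
    exact := fun x y h => by
      simp only [Function.comp_apply, hg2]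
      exact (model_exact_SkewModel m x y h).2 }, rfl, rfl⟩

end Pool.Agent.ANO2
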