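import Pool.Agent.ANO2.Prod.Skew

/-!
# ANO phase 2: the displacement of a skew product is coercive (package ANO2-P2)

Proof of `Skew.tame`.  `bdd`: let `dist p (T p) ≤ C`, `dist p' (T p') ≤ C`, `C'` from `upper C`.
`lam su p.1 p'.1 ≤ su (T p).1 (T p').1 ≤ su p.1 p'.1 + 2 C'`, so `su p.1 p'.1 ≤ 2 C' / (lam - 1)`.
`ss p.1 p'.1 ≤ 2 C' + ss (T p).1 (T p').1` and `lam ss (T p).1 (T p').1 ≤ ss p.1 p'.1`, so
`(lam - 1) ss (T p).1 (T p').1 ≤ 2 C'` and `ss p.1 p'.1 ≤ 2 C' + 2 C' / (lam - 1)`.  `proper` gives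
`dist p.1 p'.1 ≤ C2`.  Let `w = p.2 - p'.2`, `C3` from `twist C2`.  Then
`‖B w - w‖ ≤ ‖(T p).2 - (T p').2 - B w‖ + ‖(T p).2 - p.2‖ + ‖(T p').2 - p'.2‖ ≤ C3 + 2 C =: C4`,
and with
`a` from `Nupper`: `lam NU w ≤ NU (B w) ≤ NU w + a C4`, `NS w ≤ NS (B w) + a C4`,
`lam NS (B w) ≤ NS w`; so `NU w ≤ a C4 / (lam - 1)`, `NS (B w) ≤ a C4 / (lam - 1)`, and
`‖w‖ ≤ NU w + NS w` is bounded.  (`a ≥ 0` may be assumed: replace it by `max a 0`; `C ≥ 0` because
of
`dist ≥ 0`.)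

`unique`: `T p = p`, `T p' = p'`: `lam su ≤ su` gives `su p.1 p'.1 = 0`, `lam ss ≤ ss` gives
`ss p.1 p'.1 = 0`, so `p.1 = p'.1`; by `exact` `w = B w`, so `NU w = 0`, `NS w = 0`, `w = 0`.
-/

set_option autoImplicit false

open Set Filter Topology
open scoped UpperHalfPlane MatrixGroups

namespace Pool.Agent.ANO2

open Pool.Agent.ANO

variable {r k : ℕ}

private theorem bound_SkewTame {lam a b c : ℝ} (h1 : 1 < lam) (h2 : lam * a ≤ b)
    (h3 : b ≤ a + c) : a ≤ c / (lam - 1) := by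
  rw [le_div_iff₀ (by linarith)]
  nlinarith

private theorem zero_SkewTame {lam a : ℝ} (h1 : 1 < lam) (h0 : 0 ≤ a) (h2 : lam * a ≤ a) :
    a = 0 := by
  by_contra h
  have h3 : 0 < a := lt_of_le_of_ne h0 (Ne.symm h)
  nlinarith

private theorem fst_SkewTame {r k : ℕ} (x y : X r k) : dist x.1 y.1 ≤ dist x y := le_max_left _ _

private theorem snd_SkewTame {r k : ℕ} (x y : X r k) : ‖x.2 - y.2‖ ≤ dist x y := by
  rw [← dist_eq_norm]
  exact le_max_right _ _

private theorem su_bdd_SkewTame {T : X r k → X r k} (K : Skew T) {p p' : X r k} {c : ℝ}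
    (h : K.su p.1 (T p).1 ≤ c) (h' : K.su p'.1 (T p').1 ≤ c) :
    K.su p.1 p'.1 ≤ 2 * c / (K.lam - 1) := by
  refine bound_SkewTame K.one_lt (K.su_T p p') ?_
  have h1 := K.su_triangle (T p).1 p.1 (T p').1
  have h2 := K.su_triangle p.1 p'.1 (T p').1
  have h3 := K.su_symm (T p).1 p.1
  linarith

private theorem ss_bdd_SkewTame {T : X r k → X r k} (K : Skew T) {p p' : X r k} {c : ℝ}
    (h : K.ss p.1 (T p).1 ≤ c) (h' : K.ss p'.1 (T p').1 ≤ c) :
    K.ss p.1 p'.1 ≤ 2 * c / (K.lam - 1) + 2 * c := by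
  have h1 := K.ss_triangle p.1 (T p).1 p'.1
  have h2 := K.ss_triangle (T p).1 (T p').1 p'.1
  have h3 := K.ss_symm p'.1 (T p').1
  have h4 : K.ss (T p).1 (T p').1 ≤ 2 * c / (K.lam - 1) := by
    refine bound_SkewTame K.one_lt (K.ss_T p p') ?_
    linarith
  linarith

private theorem fib_bdd_SkewTame {T : X r k → X r k} (K : Skew T) {w : Fin k → ℝ} {a c : ℝ}
    (ha : ∀ v, K.NU v ≤ a * ‖v‖ ∧ K.NS v ≤ a * ‖v‖) (ha0 : 0 ≤ a) (h : ‖K.B w - w‖ ≤ c) :
    ‖w‖ ≤ a * c / (K.lam - 1) + (a * c / (K.lam - 1) + a * c) := by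
  have h1 : K.NU w ≤ a * c / (K.lam - 1) := by
    refine bound_SkewTame K.one_lt (K.NU_B w) ?_
    have h2 := K.NU_add w (K.B w - w)
    rw [add_sub_cancel] at h2
    have h3 := (ha (K.B w - w)).1
    have h4 := mul_le_mul_of_nonneg_left h ha0
    linarith
  have h5 : K.NS w ≤ K.NS (K.B w) + a * c := by
    have h2 := K.NS_add (K.B w) (-(K.B w - w))
    rw [K.NS_neg, show K.B w + -(K.B w - w) = w by abel] at h2
    have h3 := (ha (K.B w - w)).2
    have h4 := mul_le_mul_of_nonneg_left h ha0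
    linarith
  have h6 : K.NS (K.B w) ≤ a * c / (K.lam - 1) := bound_SkewTame K.one_lt (K.NS_B w) h5
  have h7 := K.Nlower w
  linarith

theorem Skew.tame {T : X r k → X r k} (K : Skew T) : Tame T := by
  refine ⟨fun C => ?_, fun p p' hp hp' => ?_⟩
  · obtain ⟨C', hC'⟩ := K.upper C
    obtain ⟨C2, hC2⟩ := K.proper (2 * C' / (K.lam - 1) + |2 * C'|)
    obtain ⟨C3, hC3⟩ := K.twist C2
    obtain ⟨a', ha'⟩ := K.Nupper
    set a := max a' 0 with ha
    have ha0 : 0 ≤ a := le_max_right _ _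
    have haN : ∀ v, K.NU v ≤ a * ‖v‖ ∧ K.NS v ≤ a * ‖v‖ := fun v =>
      ⟨(ha' v).1.trans (mul_le_mul_of_nonneg_right (le_max_left _ _) (norm_nonneg _)),
        (ha' v).2.trans (mul_le_mul_of_nonneg_right (le_max_left _ _) (norm_nonneg _))⟩
    set c := C3 + 2 * C with hc
    refine ⟨max C2 (a * c / (K.lam - 1) + (a * c / (K.lam - 1) + a * c)), ?_⟩
    intro p p' hp hp'
    have h1 := hC' _ _ ((fst_SkewTame p (T p)).trans hp)
    have h2 := hC' _ _ ((fst_SkewTame p' (T p')).trans hp')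
    have h3 := su_bdd_SkewTame K h1.1 h2.1
    have h4 := ss_bdd_SkewTame K h1.2 h2.2
    have h5 : dist p.1 p'.1 ≤ C2 := by
      refine hC2 _ _ ?_ ?_
      · have := abs_nonneg (2 * C')
        linarith
      · have := le_abs_self (2 * C')
        linarith
    have h6 := hC3 p p' h5
    have h7 : ‖K.B (p.2 - p'.2) - (p.2 - p'.2)‖ ≤ c := by
      have e : K.B (p.2 - p'.2) - (p.2 - p'.2) =
          -((T p).2 - (T p').2 - K.B (p.2 - p'.2)) + (((T p).2 - p.2) - ((T p').2 - p'.2)) := by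
        abel
      have h8 := norm_add_le (-((T p).2 - (T p').2 - K.B (p.2 - p'.2)))
        (((T p).2 - p.2) - ((T p').2 - p'.2))
      have h9 := norm_sub_le ((T p).2 - p.2) ((T p').2 - p'.2)
      have h10 := snd_SkewTame p (T p)
      have h11 := snd_SkewTame p' (T p')
      rw [norm_sub_rev] at h10 h11
      rw [norm_neg] at h8
      rw [e]
      linarith
    have h12 := fib_bdd_SkewTame K haN ha0 h7
    rw [← dist_eq_norm] at h12
    exact max_le_max h5 h12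
  · have h1 : K.su p.1 p'.1 = 0 := by
      refine zero_SkewTame K.one_lt (K.su_nonneg _ _) ?_
      have h := K.su_T p p'
      rwa [hp, hp'] at h
    have h2 : K.ss p.1 p'.1 = 0 := by
      refine zero_SkewTame K.one_lt (K.ss_nonneg _ _) ?_
      have h := K.ss_T p p'
      rwa [hp, hp'] at h
    have h3 : p.1 = p'.1 := K.eq_of_zero _ _ h1 h2
    have h4 := K.exact p p' h3
    rw [hp, hp'] at h4
    have h5 : K.NU (p.2 - p'.2) = 0 := by
      refine zero_SkewTame K.one_lt (K.NU_nonneg _) ?_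
      have h := K.NU_B (p.2 - p'.2)
      rwa [← h4] at h
    have h6 : K.NS (p.2 - p'.2) = 0 := by
      refine zero_SkewTame K.one_lt (K.NS_nonneg _) ?_
      have h := K.NS_B (p.2 - p'.2)
      rwa [← h4] at h
    have h7 := K.Nlower (p.2 - p'.2)
    rw [h5, h6, add_zero] at h7
    have h8 : p.2 = p'.2 := sub_eq_zero.1 (norm_le_zero_iff.1 h7)
    exact Prod.ext h3 h8

end Pool.Agent.ANO2
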