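import Pool.Agent.ANO2.Prod.SkewRel
import Pool.Agent.ANO2.Prod.SkewTame
import Pool.Agent.ANO2.Prod.SkewModel
import Pool.Agent.ANO2.Prod.Lifts
import Pool.Agent.ANO2.Dyn.Main

/-!
# ANO phase 2: the abstract setting for an Anosov diffeomorphism homotopic to the model
-/

set_option autoImplicit false

open Set Filter Topology
open scoped UpperHalfPlane MatrixGroups

namespace Pool.Agent.ANO2

open Pool.Agent.ANO

variable {r k : ℕ}

theorem Homotopic.iterate {S : Fin r → ClosedSurface} {G₀ G : X r k → X r k}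
    (h : Homotopic S G₀ G) (n : ℕ) : Homotopic S G₀^[n] G^[n] := by
  induction n with
  | zero => exact fun g hg => ⟨g, hg, rfl, rfl⟩
  | succ n ih =>
    intro g hg
    obtain ⟨g1, hg1, h1, h1'⟩ := h g hg
    obtain ⟨g2, hg2, h2, h2'⟩ := ih g1 hg1
    refine ⟨g2, hg2, ?_, ?_⟩
    · rw [Function.iterate_succ, Function.comp_assoc, h1, ← Function.comp_assoc, h2,
        Function.comp_assoc]
    · rw [Function.iterate_succ, Function.comp_assoc, h1', ← Function.comp_assoc, h2',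
        Function.comp_assoc]

/-- A homotopy in terms of the elements of `deckGroup`. -/
theorem Homotopic.conj {S : Fin r → ClosedSurface} {G₀ G : X r k → X r k}
    (h : Homotopic S G₀ G) {g : X r k ≃ᵢ X r k} (hg : g ∈ deckGroup S k) :
    ∃ g' ∈ deckGroup S k, (∀ x, G (g x) = g' (G x)) ∧ ∀ x, G₀ (g x) = g' (G₀ x) := by
  obtain ⟨g1, hg1, h1, h1'⟩ := h g hg
  obtain ⟨g', hg', rfl⟩ := hg1.exists_mem
  exact ⟨g', hg', fun x => congrFun h1' x, fun x => congrFun h1 x⟩

/-- Two continuous maps which are homotopic in this sense have bounded distance. -/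
theorem Homotopic.bounded {S : Fin r → ClosedSurface} {G₀ G : X r k → X r k}
    (h : Homotopic S G₀ G) (hc₀ : Continuous G₀) (hc : Continuous G) :
    ∃ C : ℝ, ∀ x, dist (G x) (G₀ x) ≤ C := by
  obtain ⟨K, hK, hcov⟩ := cocompact S k
  obtain ⟨C, hC⟩ := (hK.image (hc.dist hc₀)).bddAbove
  refine ⟨C, fun x => ?_⟩
  obtain ⟨g, hg, hx⟩ := hcov x
  obtain ⟨g', -, h1, h2⟩ := h.conj hg
  have h3 : dist (G (g x)) (G₀ (g x)) ≤ C := hC ⟨g x, hx, rfl⟩
  rw [h1, h2, g'.dist_eq] at h3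
  exact h3

theorem anosov_conj' {S : Fin r → ClosedSurface} {F : X r k ≃ₜ X r k} (hF : IsAnosovLift S F)
    (n : ℕ) {g' : X r k → X r k} (hg' : IsDeck S k g') :
    ∃ g, IsDeck S k g ∧ ⇑(F ^ n) ∘ g = g' ∘ ⇑(F ^ n) := by
  induction n generalizing g' with
  | zero => exact ⟨g', hg', rfl⟩
  | succ n ih =>
    obtain ⟨g1, hg1, h1⟩ := ih hg'
    obtain ⟨g2, hg2, h2⟩ := hF.2.2.2.1 g1 hg1
    refine ⟨g2, hg2, ?_⟩
    have h3 : ⇑(F ^ (n + 1)) = ⇑(F ^ n) ∘ ⇑F := by
      rw [pow_succ]; rfl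
    rw [h3, Function.comp_assoc, h2, ← Function.comp_assoc, h1, Function.comp_assoc]

/-- Conversely every deck transformation is of the form `g'`. -/
theorem Homotopic.conj' {S : Fin r → ClosedSurface} {F : X r k ≃ₜ X r k} (hF : IsAnosovLift S F)
    {n : ℕ} {G₀ : X r k → X r k} (h : Homotopic S G₀ (F ^ n : X r k ≃ₜ X r k))
    {g' : X r k ≃ᵢ X r k} (hg' : g' ∈ deckGroup S k) :
    ∃ g ∈ deckGroup S k, (∀ x, (F ^ n) (g x) = g' ((F ^ n) x)) ∧ ∀ x, G₀ (g x) = g' (G₀ x) := by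
  obtain ⟨g1, hg1, h1⟩ := anosov_conj' hF n hg'
  obtain ⟨g, hg, rfl⟩ := hg1.exists_mem
  obtain ⟨g2, hg2, h2, h3⟩ := h.conj hg
  refine ⟨g, hg, fun x => congrFun h1 x, fun x => ?_⟩
  rw [h3]
  obtain ⟨y, hy⟩ := (F ^ n).surjective (G₀ x)
  rw [← hy, ← h2]
  exact congrFun h1 y

theorem pow_mul_eq_iterate (F : X r k ≃ₜ X r k) (n N : ℕ) :
    ⇑(F ^ (n * N)) = (⇑(F ^ n))^[N] := by
  rw [pow_mul, coe_pow_eq_iterate]

theorem Homotopic.pow {S : Fin r → ClosedSurface} {F : X r k ≃ₜ X r k} {n : ℕ}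
    {G₀ : X r k → X r k} (h : Homotopic S G₀ (F ^ n : X r k ≃ₜ X r k)) (N : ℕ) :
    Homotopic S G₀^[N] (F ^ (n * N) : X r k ≃ₜ X r k) := by
  rw [pow_mul_eq_iterate]
  exact h.iterate N

theorem skew_model {S : Fin r → SurfaceMap} {A : Matrix (Fin k) (Fin k) ℤ}
    {τ : (Fin r → ℍ) → (Fin k → ℝ)} (G : ∀ i, PAGeo (S i)) (hA : IsHyperbolicMatrix A)
    (hτ : IsTwist (surf S) τ) : ∃ K : Skew (modelHomeo S A hA.1 τ hτ.cont),
      (K.su = fun x y => ∑ i, (G i).du (x i) (y i)) ∧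
      (K.ss = fun x y => ∑ i, (G i).ds (x i) (y i)) := by
  have h := exists_skew G hA hτ Nat.one_pos (IsDeck.id (surf S))
  exact h

theorem tame_model {S : Fin r → SurfaceMap} {A : Matrix (Fin k) (Fin k) ℤ}
    {τ : (Fin r → ℍ) → (Fin k → ℝ)} (G : ∀ i, PAGeo (S i)) (hA : IsHyperbolicMatrix A)
    (hτ : IsTwist (surf S) τ) {m : ℕ} (hm : 0 < m) {g : X r k → X r k}
    (hg : IsDeck (surf S) k g) : Tame (g ∘ (model S A τ)^[m]) := by
  obtain ⟨K, -, -⟩ := exists_skew G hA hτ hm hg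
  exact K.tame

/-- The abstract setting of the core. -/
noncomputable def mkSetup (S : Fin r → SurfaceMap) (A : Matrix (Fin k) (Fin k) ℤ)
    (τ : (Fin r → ℍ) → (Fin k → ℝ)) (G : ∀ i, PAGeo (S i)) (hA : IsHyperbolicMatrix A)
    (hτ : IsTwist (surf S) τ) (F : X r k ≃ₜ X r k) (hF : IsAnosovLift (surf S) F) (n : ℕ)
    (hn : 0 < n) (hh : Homotopic (surf S) (model S A τ) (F ^ n : X r k ≃ₜ X r k))
    (hidx : IndexStatement) : Core.Setup (X r k) where
  𝒢 := deckGroup (surf S) k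
  F := F ^ n
  F0 := modelHomeo S A hA.1 τ hτ.cont
  conj := fun g hg => hh.conj hg
  conj' := fun g' hg' => hh.conj' hF hg'
  cocompact := cocompact (surf S) k
  near := hh.bounded (continuous_model S A hτ.cont) (F ^ n).continuous
  near' := by
    have h1 : Homotopic (surf S) (modelHomeo S A hA.1 τ hτ.cont).symm (F ^ n).symm := by
      intro g' hg'
      obtain ⟨g'', hg'', rfl⟩ := hg'.exists_mem
      obtain ⟨g, hg, h2, h3⟩ := hh.conj' hF hg''
      refine ⟨g, hg, ?_, ?_⟩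
      · funext x
        have h4 := h3 ((modelHomeo S A hA.1 τ hτ.cont).symm x)
        rw [← coe_modelHomeo S A hA.1 τ hτ.cont, Homeomorph.apply_symm_apply] at h4
        rw [Function.comp_apply, ← h4, Homeomorph.symm_apply_apply, Function.comp_apply]
      · funext x
        have h4 := h2 ((F ^ n).symm x)
        rw [Homeomorph.apply_symm_apply] at h4
        rw [Function.comp_apply, ← h4, Homeomorph.symm_apply_apply, Function.comp_apply]
    exact h1.bounded (modelHomeo S A hA.1 τ hτ.cont).symm.continuous (F ^ n).symm.continuous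
  rel_bound := by
    obtain ⟨K, -, -⟩ := skew_model G hA hτ
    refine K.rel_bound (hh.bounded (continuous_model S A hτ.cont) (F ^ n).continuous) ?_
    have h1 : Homotopic (surf S) (modelHomeo S A hA.1 τ hτ.cont).symm (F ^ n).symm := by
      intro g' hg'
      obtain ⟨g'', hg'', rfl⟩ := hg'.exists_mem
      obtain ⟨g, hg, h2, h3⟩ := hh.conj' hF hg''
      refine ⟨g, hg, ?_, ?_⟩
      · funext x
        have h4 := h3 ((modelHomeo S A hA.1 τ hτ.cont).symm x)
        rw [← coe_modelHomeo S A hA.1 τ hτ.cont, Homeomorph.apply_symm_apply] at h4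
        rw [Function.comp_apply, ← h4, Homeomorph.symm_apply_apply, Function.comp_apply]
      · funext x
        have h4 := h2 ((F ^ n).symm x)
        rw [Homeomorph.apply_symm_apply] at h4
        rw [Function.comp_apply, ← h4, Homeomorph.symm_apply_apply, Function.comp_apply]
    exact h1.bounded (modelHomeo S A hA.1 τ hτ.cont).symm.continuous (F ^ n).symm.continuous
  eq_of_bounded := by
    obtain ⟨K, -, -⟩ := skew_model G hA hτ
    exact K.eq_of_bounded
  e0 := (Dyn.main hF hn).1.choose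
  e0_pos := (Dyn.main hF hn).1.choose_spec.1
  expansive := (Dyn.main hF hn).1.choose_spec.2
  shadowing := (Dyn.main hF hn).2
  index := by
    intro g hg m hm q hq
    have h1 : Homotopic (surf S) (model S A τ)^[m] (F ^ (n * m) : X r k ≃ₜ X r k) := hh.pow m
    obtain ⟨z, hz⟩ := hidx r k (surf S) F hF (n * m) (Nat.mul_pos hn hm) _
      ((continuous_model S A hτ.cont).iterate m) h1 g hg (tame_model G hA hτ hm hg) q (by
        rw [pow_mul]
        exact hq)
    refine ⟨z, ?_⟩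
    rw [coe_modelHomeo_pow]
    exact hz

end Pool.Agent.ANO2
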