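import Pool.Agent.ANO2.Iface

/-!
# ANO phase 2: the deck group as a group of isometries; cocompactness

`MP_5e77d9_an`.
-/

set_option autoImplicit false

open Set Filter Topology
open scoped UpperHalfPlane MatrixGroups

namespace Pool.Agent.ANO2

open Pool.Agent.ANO

variable {r k : ℕ}

/-- The isometry `(z, t) ↦ (γ z, t + v)`. -/
noncomputable def deckIso (γ : Fin r → SL(2, ℝ)) (v : Fin k → ℤ) : X r k ≃ᵢ X r k :=
  IsometryEquiv.mk' (fun p => (fun i => γ i • p.1 i, fun j => p.2 j + v j))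
    (fun p => (fun i => (γ i)⁻¹ • p.1 i, fun j => p.2 j - v j))
    (fun p => by simp)
    (by
      apply Isometry.prodMap (f := fun (z : Fin r → ℍ) => fun i => γ i • z i)
        (g := fun (t : Fin k → ℝ) => fun j => t j + v j)
      · exact Isometry.piMap (f := fun i (z : ℍ) => γ i • z) fun i => isometry_smul ℍ (γ i)
      · exact Isometry.piMap (f := fun j (t : ℝ) => t + v j) fun j => by
          apply Isometry.of_dist_eq
          intro x y
          simp)

theorem deckIso_apply (γ : Fin r → SL(2, ℝ)) (v : Fin k → ℤ) (p : X r k) :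
    deckIso γ v p = (fun i => γ i • p.1 i, fun j => p.2 j + v j) := rfl

theorem deckIso_symm_apply (γ : Fin r → SL(2, ℝ)) (v : Fin k → ℤ) (p : X r k) :
    (deckIso γ v).symm p = (fun i => (γ i)⁻¹ • p.1 i, fun j => p.2 j - v j) := rfl

theorem isDeck_iff (S : Fin r → ClosedSurface) (g : X r k → X r k) :
    IsDeck S k g ↔ ∃ (γ : Fin r → SL(2, ℝ)) (v : Fin k → ℤ), (∀ i, γ i ∈ (S i).Γ) ∧
      g = deckIso γ v := by
  constructor
  · rintro ⟨γ, v, hγ, h⟩
    exact ⟨γ, v, hγ, funext h⟩
  · rintro ⟨γ, v, hγ, rfl⟩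
    exact ⟨γ, v, hγ, fun p => rfl⟩

theorem isDeck_deckIso (S : Fin r → ClosedSurface) {γ : Fin r → SL(2, ℝ)} (v : Fin k → ℤ)
    (hγ : ∀ i, γ i ∈ (S i).Γ) : IsDeck S k (deckIso γ v) := ⟨γ, v, hγ, fun _ => rfl⟩

theorem IsDeck.id (S : Fin r → ClosedSurface) : IsDeck S k (_root_.id : X r k → X r k) :=
  ⟨fun _ => 1, fun _ => 0, fun i => (S i).Γ.one_mem, fun p => by simp⟩

theorem IsDeck.comp {S : Fin r → ClosedSurface} {g h : X r k → X r k} (hg : IsDeck S k g)
    (hh : IsDeck S k h) : IsDeck S k (g ∘ h) := by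
  obtain ⟨γ, v, hγ, h1⟩ := hg
  obtain ⟨γ', v', hγ', h2⟩ := hh
  refine ⟨fun i => γ i * γ' i, fun j => v' j + v j, fun i => (S i).Γ.mul_mem (hγ i) (hγ' i), ?_⟩
  intro p
  rw [Function.comp_apply, h1, h2]
  ext1
  · funext i
    simp only [mul_smul]
  · funext j
    push_cast
    ring

/-- The deck group, as a subgroup of the group of isometries. -/
noncomputable def deckGroup (S : Fin r → ClosedSurface) (k : ℕ) : Subgroup (X r k ≃ᵢ X r k) where
  carrier := {g | IsDeck S k g}
  one_mem' := IsDeck.id S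
  mul_mem' := by
    intro a b ha hb
    exact IsDeck.comp (g := a) (h := b) ha hb
  inv_mem' := by
    intro g hg
    obtain ⟨γ, v, hγ, h⟩ := hg
    have hg' : g = deckIso γ v := by
      ext1 p
      exact h p
    subst hg'
    refine ⟨fun i => (γ i)⁻¹, fun j => -v j, fun i => (S i).Γ.inv_mem (hγ i), ?_⟩
    intro p
    change (deckIso γ v).symm p = _
    rw [deckIso_symm_apply]
    ext1
    · rfl
    · funext j
      push_cast
      ring

theorem mem_deckGroup {S : Fin r → ClosedSurface} {g : X r k ≃ᵢ X r k} :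
    g ∈ deckGroup S k ↔ IsDeck S k g := Iff.rfl

/-- Every deck transformation is an element of `deckGroup`. -/
theorem IsDeck.exists_mem {S : Fin r → ClosedSurface} {g : X r k → X r k} (hg : IsDeck S k g) :
    ∃ g' ∈ deckGroup S k, g = g' := by
  obtain ⟨γ, v, hγ, rfl⟩ := (isDeck_iff S g).1 hg
  exact ⟨deckIso γ v, isDeck_deckIso S v hγ, rfl⟩

theorem IsDeck.continuous {S : Fin r → ClosedSurface} {g : X r k → X r k} (hg : IsDeck S k g) :
    Continuous g := by
  obtain ⟨g', _, rfl⟩ := hg.exists_mem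
  exact g'.continuous

theorem IsDeck.isometry {S : Fin r → ClosedSurface} {g : X r k → X r k} (hg : IsDeck S k g) :
    Isometry g := by
  obtain ⟨g', _, rfl⟩ := hg.exists_mem
  exact g'.isometry

/-- The deck group acts cocompactly. -/
theorem cocompact (S : Fin r → ClosedSurface) (k : ℕ) :
    ∃ K : Set (X r k), IsCompact K ∧ ∀ x, ∃ g ∈ deckGroup S k, g x ∈ K := by
  choose K hK hc using fun i => (S i).cocompact
  refine ⟨(Set.univ.pi K) ×ˢ (Set.univ.pi fun _ => Set.Icc (0 : ℝ) 1),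
    (isCompact_univ_pi hK).prod (isCompact_univ_pi fun _ => isCompact_Icc), ?_⟩
  intro x
  choose γ hγ hx using fun i => hc i (x.1 i)
  refine ⟨deckIso γ (fun j => -⌊x.2 j⌋), isDeck_deckIso S _ hγ, ?_⟩
  rw [deckIso_apply]
  refine ⟨fun i _ => hx i, fun j _ => ?_⟩
  simp only [Int.cast_neg]
  constructor
  · linarith [Int.floor_le (x.2 j)]
  · linarith [Int.lt_floor_add_one (x.2 j)]

end Pool.Agent.ANO2
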