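import Pool.Agent.ANO2.Prod.Deck
import Pool.Agent.ANO.Asm.Model

/-!
# ANO phase 2: the model map as a homeomorphism
-/

set_option autoImplicit false

open Set Filter Topology
open scoped UpperHalfPlane MatrixGroups

namespace Pool.Agent.ANO2

open Pool.Agent.ANO

variable {r k : ℕ}

/-- The product of the surface maps. -/
noncomputable def surfHomeo (S : Fin r → SurfaceMap) : (Fin r → ℍ) ≃ₜ (Fin r → ℍ) :=
  Homeomorph.piCongrRight fun i => (S i).f

theorem surfHomeo_apply (S : Fin r → SurfaceMap) (z : Fin r → ℍ) (i : Fin r) :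
    surfHomeo S z i = (S i).f (z i) := rfl

/-- The model as a homeomorphism of the universal cover. -/
noncomputable def modelHomeo (S : Fin r → SurfaceMap) (A : Matrix (Fin k) (Fin k) ℤ)
    (hA : IsUnit A.det) (τ : (Fin r → ℍ) → (Fin k → ℝ)) (hτ : Continuous τ) :
    X r k ≃ₜ X r k where
  toFun := model S A τ
  invFun p := ((surfHomeo S).symm p.1, (matHomeo A hA).symm (p.2 - τ ((surfHomeo S).symm p.1)))
  left_inv p := by
    have h1 : (model S A τ p).1 = surfHomeo S p.1 := rfl
    have h2 : (model S A τ p).2 = matHomeo A hA p.2 + τ p.1 := rfl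
    refine Prod.ext ?_ ?_
    · show (surfHomeo S).symm (model S A τ p).1 = p.1
      rw [h1, Homeomorph.symm_apply_apply]
    · show (matHomeo A hA).symm ((model S A τ p).2 - τ ((surfHomeo S).symm (model S A τ p).1)) = p.2
      rw [h1, Homeomorph.symm_apply_apply, h2, add_sub_cancel_right, Homeomorph.symm_apply_apply]
  right_inv p := by
    refine Prod.ext ?_ ?_
    · show surfHomeo S ((surfHomeo S).symm p.1) = p.1
      rw [Homeomorph.apply_symm_apply]
    · show matHomeo A hA ((matHomeo A hA).symm (p.2 - τ ((surfHomeo S).symm p.1))) +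
        τ ((surfHomeo S).symm p.1) = p.2
      rw [Homeomorph.apply_symm_apply, sub_add_cancel]
  continuous_toFun := by
    show Continuous fun p : X r k => (surfHomeo S p.1, matHomeo A hA p.2 + τ p.1)
    fun_prop
  continuous_invFun := by
    have h1 : Continuous fun p : X r k => (surfHomeo S).symm p.1 :=
      (surfHomeo S).symm.continuous.comp continuous_fst
    exact h1.prodMk ((matHomeo A hA).symm.continuous.comp
      (continuous_snd.sub (hτ.comp h1)))

theorem coe_modelHomeo (S : Fin r → SurfaceMap) (A : Matrix (Fin k) (Fin k) ℤ)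
    (hA : IsUnit A.det) (τ : (Fin r → ℍ) → (Fin k → ℝ)) (hτ : Continuous τ) :
    ⇑(modelHomeo S A hA τ hτ) = model S A τ := rfl

theorem coe_modelHomeo_pow (S : Fin r → SurfaceMap) (A : Matrix (Fin k) (Fin k) ℤ)
    (hA : IsUnit A.det) (τ : (Fin r → ℍ) → (Fin k → ℝ)) (hτ : Continuous τ) (n : ℕ) :
    ⇑(modelHomeo S A hA τ hτ ^ n) = (model S A τ)^[n] := by
  rw [coe_pow_eq_iterate]
  rfl

theorem continuous_model (S : Fin r → SurfaceMap) (A : Matrix (Fin k) (Fin k) ℤ)
    {τ : (Fin r → ℍ) → (Fin k → ℝ)} (hτ : Continuous τ) : Continuous (model S A τ) := by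
  unfold model
  refine Continuous.prodMk ?_ ?_
  · exact continuous_pi fun i =>
      (S i).f.continuous.comp ((continuous_apply i).comp continuous_fst)
  · exact (continuous_const.matrix_mulVec continuous_snd).add (hτ.comp continuous_fst)

end Pool.Agent.ANO2
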