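import Pool.Agent.ANO2.Prod.Model

/-!
# ANO phase 2: skew products with a hyperbolic torus part

`T (z, t) = (T₁ z, B t + β z)`, where `T₁` is expanding for `su` and contracting for `ss`, `B` is
hyperbolic and `β` is coarsely Lipschitz.
-/

set_option autoImplicit false

open Set Filter Topology
open scoped UpperHalfPlane MatrixGroups

namespace Pool.Agent.ANO2

open Pool.Agent.ANO

variable {r k : ℕ}

structure Skew (T : X r k → X r k) where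
  su : (Fin r → ℍ) → (Fin r → ℍ) → ℝ
  ss : (Fin r → ℍ) → (Fin r → ℍ) → ℝ
  su_nonneg : ∀ x y, 0 ≤ su x y
  ss_nonneg : ∀ x y, 0 ≤ ss x y
  su_symm : ∀ x y, su x y = su y x
  ss_symm : ∀ x y, ss x y = ss y x
  su_triangle : ∀ x y z, su x z ≤ su x y + su y z
  ss_triangle : ∀ x y z, ss x z ≤ ss x y + ss y z
  lam : ℝ
  one_lt : 1 < lam
  su_T : ∀ x y : X r k, lam * su x.1 y.1 ≤ su (T x).1 (T y).1
  ss_T : ∀ x y : X r k, lam * ss (T x).1 (T y).1 ≤ ss x.1 y.1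
  upper : ∀ R : ℝ, ∃ C : ℝ, ∀ x y, dist x y ≤ R → su x y ≤ C ∧ ss x y ≤ C
  proper : ∀ R : ℝ, ∃ C : ℝ, ∀ x y, su x y ≤ R → ss x y ≤ R → dist x y ≤ C
  eq_of_zero : ∀ x y, su x y = 0 → ss x y = 0 → x = y
  B : (Fin k → ℝ) →ₗ[ℝ] (Fin k → ℝ)
  NU : (Fin k → ℝ) → ℝ
  NS : (Fin k → ℝ) → ℝ
  NU_nonneg : ∀ v, 0 ≤ NU v
  NS_nonneg : ∀ v, 0 ≤ NS v
  NU_neg : ∀ v, NU (-v) = NU v
  NS_neg : ∀ v, NS (-v) = NS v
  NU_add : ∀ v w, NU (v + w) ≤ NU v + NU w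
  NS_add : ∀ v w, NS (v + w) ≤ NS v + NS w
  NU_B : ∀ v, lam * NU v ≤ NU (B v)
  NS_B : ∀ v, lam * NS (B v) ≤ NS v
  Nupper : ∃ C : ℝ, ∀ v, NU v ≤ C * ‖v‖ ∧ NS v ≤ C * ‖v‖
  Nlower : ∀ v, ‖v‖ ≤ NU v + NS v
  twist : ∀ R : ℝ, ∃ C : ℝ, ∀ x y : X r k, dist x.1 y.1 ≤ R →
    ‖(T x).2 - (T y).2 - B (x.2 - y.2)‖ ≤ C
  exact : ∀ x y : X r k, x.1 = y.1 → (T x).2 - (T y).2 = B (x.2 - y.2)

end Pool.Agent.ANO2
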