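import Pool.Agent.ANO2.Prod.Skew

/-!
# ANO phase 2: shadowing for skew products (package ANO2-P1)

Let `F0` be a homeomorphism with `K : Skew F0`, `F` a homeomorphism at bounded distance from it.

* `stretchU`: `lam^J su z.1 z'.1 ≤ su (F0^J z).1 (F0^J z').1 ≤ C` (induction on `J` with `su_T`;
  `upper R`; `dist x.1 y.1 ≤ dist x y`).  `stretchS`: the same with `F0.symm` (`ss_T` at
  `F0.symm x`, `F0.symm y`); compare `Pool/Agent/ANO/Core/Rel.lean`.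
* `eq_of_bounded`: `su z.1 z'.1 = 0` and `ss z.1 z'.1 = 0`, so `z.1 = z'.1`, and `(F0^j z).1 =
  (F0^j z').1` for all `j` (the first coordinate of `F0 x` depends only on `x.1`: by `su_T`,
  `ss_T`, `eq_of_zero` for the positive direction; for `j < 0` apply the first part to `F0^j z`,
  `F0^j z'`, whose orbits are also at bounded distance).  With `v_j = (F0^j z).2 - (F0^j z').2`:
  `v_(j+1) = B v_j` (`exact`), `v_j` bounded for `j : ℤ`.  `NU v_0 ≤ lam^(-J) NU v_J` and `NS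
  v_0 ≤ lam^(-J) NS v_(-J)`, so `NU v_0 = NS v_0 = 0`, `v_0 = 0` by `Nlower`.
* `rel_bound`: let `Rel x z`: `dist (F^j x) (F0^j z) ≤ R`.  `u_j = su (F^j x).1 (F0^j z).1`:
  `lam u_j ≤ su (F0 F^j x).1 (F0^(j+1) z).1 ≤ C' + u_(j+1)`, `C'` from `upper` and `near`;
  bounded in `j`, so `u_j ≤ C' / (lam - 1)` (lemma `geo` in `ANO/Core/Rel.lean`, copy it).
  Similarly `ss (F^j x).1 (F0^j z).1 ≤ C'/(lam-1)` with `near'`.  `proper` gives `dist (F^j x).1
  (F0^j z).1 ≤ C2`, uniform.  Let `C3` be from `twist C2`, `δ_j = (F^j x).2 - (F0^j z).2`.  Then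
  `‖δ_(j+1) - B δ_j‖ ≤ ‖(F (F^j x)).2 - (F0 (F^j x)).2‖ + ‖(F0 (F^j x)).2 - (F0 (F0^j z)).2 - B
  δ_j‖ ≤ C + C3 =: C4`.  With `a` from `Nupper`: `lam NU δ_j ≤ NU (B δ_j) ≤ NU δ_(j+1) + a C4`,
  bounded in `j`, so `NU δ_j ≤ a C4 / (lam - 1)` (`geo`). `lam NS δ_(j+1) ≤ lam NS (B δ_j) + lam
  a C4 ≤ NS δ_j + lam a C4`, so by `geo` applied to `j ↦ NS δ_(-j)` `NS δ_j ≤ lam a C4 / (lam -
  1)`.  So `‖δ_j‖` is bounded uniformly (`Nlower`), and `dist` on `X r k` is the maximum of the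
  two distances.
-/

set_option autoImplicit false

open Set Filter Topology
open scoped UpperHalfPlane MatrixGroups

namespace Pool.Agent.ANO2

open Pool.Agent.ANO

variable {r k : ℕ} {F F0 : X r k ≃ₜ X r k}

private theorem geo_SkewRel {lam : ℝ} (hl : 1 < lam) {C : ℝ} {u : ℤ → ℝ} {B : ℝ}
    (hB : ∀ j, u j ≤ B) (h : ∀ j, lam * u j ≤ C + u (j + 1)) (j : ℤ) : u j ≤ C / (lam - 1) := by
  have hb : BddAbove (Set.range u) := ⟨B, by
    rintro _ ⟨i, rfl⟩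
    exact hB i⟩
  have h0 : 0 < lam := by linarith
  have h1 : ∀ i, u i ≤ (C + ⨆ l, u l) / lam := by
    intro i
    rw [le_div_iff₀ h0, mul_comm]
    exact (h i).trans (by linarith [le_ciSup hb (i + 1)])
  have h2 : (⨆ l, u l) ≤ (C + ⨆ l, u l) / lam := ciSup_le h1
  rw [le_div_iff₀ h0] at h2
  have h3 : u j ≤ ⨆ l, u l := le_ciSup hb j
  refine h3.trans ?_
  rw [le_div_iff₀ (by linarith)]
  linarith

private theorem zsucc_SkewRel (H : X r k ≃ₜ X r k) (j : ℤ) (x : X r k) :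
    (H ^ (j + 1)) x = H ((H ^ j) x) := by
  rw [add_comm, zpow_one_add]
  rfl

private theorem zpred_SkewRel (H : X r k ≃ₜ X r k) (j : ℤ) (x : X r k) :
    (H ^ (j - 1)) x = H.symm ((H ^ j) x) := by
  have h1 := zsucc_SkewRel H (j - 1) x
  rw [sub_add_cancel] at h1
  rw [h1, Homeomorph.symm_apply_apply]

private theorem bound_zero_SkewRel {lam : ℝ} (hl : 1 < lam) {a C : ℝ} (ha : 0 ≤ a)
    (h : ∀ J : ℕ, lam ^ J * a ≤ C) : a = 0 := by
  by_contra h0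
  have h1 : 0 < a := lt_of_le_of_ne ha (Ne.symm h0)
  obtain ⟨n, hn⟩ := pow_unbounded_of_one_lt (C / a) hl
  rw [div_lt_iff₀ h1] at hn
  exact absurd (h n) (not_le.2 hn)

private theorem dist_fst_SkewRel (x y : X r k) : dist x.1 y.1 ≤ dist x y := by
  rw [Prod.dist_eq]
  exact le_max_left _ _

private theorem dist_snd_SkewRel (x y : X r k) : ‖x.2 - y.2‖ ≤ dist x y := by
  rw [Prod.dist_eq, ← dist_eq_norm]
  exact le_max_right _ _

theorem Skew.stretchU (K : Skew F0) (R : ℝ) : ∃ C : ℝ, ∀ (J : ℕ) (z z' : X r k),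
    dist ((F0 ^ (J : ℤ)) z) ((F0 ^ (J : ℤ)) z') ≤ R → K.lam ^ J * K.su z.1 z'.1 ≤ C := by
  obtain ⟨C, hC⟩ := K.upper R
  refine ⟨C, fun J z z' h => le_trans ?_ (hC _ _ ((dist_fst_SkewRel _ _).trans h)).1⟩
  clear h
  have h0 : 0 < K.lam := by linarith [K.one_lt]
  induction J with
  | zero =>
    rw [pow_zero, one_mul]
    exact le_of_eq rfl
  | succ J ih =>
    have h1 := K.su_T ((F0 ^ (J : ℤ)) z) ((F0 ^ (J : ℤ)) z')
    have h2 : ((J + 1 : ℕ) : ℤ) = (J : ℤ) + 1 := by push_cast; ring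
    rw [h2, zsucc_SkewRel, zsucc_SkewRel]
    have h3 : K.lam ^ (J + 1) * K.su z.1 z'.1 = K.lam * (K.lam ^ J * K.su z.1 z'.1) := by ring
    rw [h3]
    exact (mul_le_mul_of_nonneg_left ih h0.le).trans h1

private theorem ss_symm_SkewRel (K : Skew F0) (x y : X r k) :
    K.lam * K.ss x.1 y.1 ≤ K.ss (F0.symm x).1 (F0.symm y).1 := by
  have h1 := K.ss_T (F0.symm x) (F0.symm y)
  rwa [F0.apply_symm_apply, F0.apply_symm_apply] at h1

theorem Skew.stretchS (K : Skew F0) (R : ℝ) : ∃ C : ℝ, ∀ (J : ℕ) (z z' : X r k),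
    dist ((F0 ^ (-(J : ℤ))) z) ((F0 ^ (-(J : ℤ))) z') ≤ R → K.lam ^ J * K.ss z.1 z'.1 ≤ C := by
  obtain ⟨C, hC⟩ := K.upper R
  refine ⟨C, fun J z z' h => le_trans ?_ (hC _ _ ((dist_fst_SkewRel _ _).trans h)).2⟩
  clear h
  have h0 : 0 < K.lam := by linarith [K.one_lt]
  induction J with
  | zero =>
    rw [pow_zero, one_mul]
    exact le_of_eq rfl
  | succ J ih =>
    have h1 := ss_symm_SkewRel K ((F0 ^ (-(J : ℤ))) z) ((F0 ^ (-(J : ℤ))) z')
    have h2 : -((J + 1 : ℕ) : ℤ) = -(J : ℤ) - 1 := by push_cast; ring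
    rw [h2, zpred_SkewRel, zpred_SkewRel]
    have h3 : K.lam ^ (J + 1) * K.ss z.1 z'.1 = K.lam * (K.lam ^ J * K.ss z.1 z'.1) := by ring
    rw [h3]
    exact (mul_le_mul_of_nonneg_left ih h0.le).trans h1

private theorem fst_eq_SkewRel (K : Skew F0) (z z' : X r k) {C : ℝ}
    (h : ∀ j : ℤ, dist ((F0 ^ j) z) ((F0 ^ j) z') ≤ C) : z.1 = z'.1 := by
  obtain ⟨C1, h1⟩ := K.stretchU C
  obtain ⟨C2, h2⟩ := K.stretchS C
  exact K.eq_of_zero _ _
    (bound_zero_SkewRel K.one_lt (K.su_nonneg _ _) fun J => h1 J z z' (h _))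
    (bound_zero_SkewRel K.one_lt (K.ss_nonneg _ _) fun J => h2 J z z' (h _))

theorem Skew.eq_of_bounded (K : Skew F0) (z z' : X r k)
    (h : ∃ C : ℝ, ∀ j : ℤ, dist ((F0 ^ j) z) ((F0 ^ j) z') ≤ C) : z = z' := by
  obtain ⟨C, hC⟩ := h
  have hfst : ∀ j : ℤ, ((F0 ^ j) z).1 = ((F0 ^ j) z').1 := by
    intro j
    apply fst_eq_SkewRel K (C := C)
    intro i
    have h1 : ∀ x, (F0 ^ i) ((F0 ^ j) x) = (F0 ^ (i + j)) x := by
      intro x
      rw [zpow_add]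
      rfl
    rw [h1, h1]
    exact hC _
  obtain ⟨a, ha⟩ := K.Nupper
  have h0 : 0 < K.lam := by linarith [K.one_lt]
  have hC0 : 0 ≤ C := dist_nonneg.trans (hC 0)
  set v : ℤ → (Fin k → ℝ) := fun j => ((F0 ^ j) z).2 - ((F0 ^ j) z').2 with hv
  have hvn : ∀ j, ‖v j‖ ≤ C := fun j => (dist_snd_SkewRel _ _).trans (hC j)
  have hB : ∀ j, v (j + 1) = K.B (v j) := by
    intro j
    have h1 := K.exact _ _ (hfst j)
    simp only [hv, zsucc_SkewRel]
    exact h1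
  have haC : ∀ w : Fin k → ℝ, ‖w‖ ≤ C → a * ‖w‖ ≤ |a| * C := fun w hw =>
    (mul_le_mul_of_nonneg_right (le_abs_self a) (norm_nonneg w)).trans
      (mul_le_mul_of_nonneg_left hw (abs_nonneg a))
  have hU : ∀ J : ℕ, K.lam ^ J * K.NU (v 0) ≤ K.NU (v J) := by
    intro J
    induction J with
    | zero =>
      rw [pow_zero, one_mul]
      exact le_of_eq rfl
    | succ J ih =>
      have h1 : K.lam ^ (J + 1) * K.NU (v 0) = K.lam * (K.lam ^ J * K.NU (v 0)) := by ring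
      have h2 : ((J + 1 : ℕ) : ℤ) = (J : ℤ) + 1 := by push_cast; ring
      rw [h1, h2, hB]
      exact (mul_le_mul_of_nonneg_left ih h0.le).trans (K.NU_B _)
  have hS : ∀ J : ℕ, K.lam ^ J * K.NS (v 0) ≤ K.NS (v (-(J : ℤ))) := by
    intro J
    induction J with
    | zero =>
      rw [pow_zero, one_mul]
      exact le_of_eq rfl
    | succ J ih =>
      have h1 : K.lam ^ (J + 1) * K.NS (v 0) = K.lam * (K.lam ^ J * K.NS (v 0)) := by ring
      have h2 : -(J : ℤ) = -((J + 1 : ℕ) : ℤ) + 1 := by push_cast; ring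
      rw [h2, hB] at ih
      rw [h1]
      exact (mul_le_mul_of_nonneg_left ih h0.le).trans (K.NS_B _)
  have hU0 : K.NU (v 0) = 0 := bound_zero_SkewRel K.one_lt (K.NU_nonneg _)
    fun J => (hU J).trans ((ha _).1.trans (haC _ (hvn _)))
  have hS0 : K.NS (v 0) = 0 := bound_zero_SkewRel K.one_lt (K.NS_nonneg _)
    fun J => (hS J).trans ((ha _).2.trans (haC _ (hvn _)))
  have hv0 : v 0 = 0 := by
    have h1 := K.Nlower (v 0)
    rw [hU0, hS0, add_zero] at h1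
    exact norm_le_zero_iff.1 h1
  have h1 : z.2 - z'.2 = 0 := hv0
  exact Prod.ext (hfst 0) (sub_eq_zero.1 h1)

theorem Skew.rel_bound (K : Skew F0) (near : ∃ C : ℝ, ∀ x, dist (F x) (F0 x) ≤ C)
    (near' : ∃ C : ℝ, ∀ x, dist (F.symm x) (F0.symm x) ≤ C) : ∃ C1 : ℝ, ∀ x z,
      (∃ C : ℝ, ∀ j : ℤ, dist ((F ^ j) x) ((F0 ^ j) z) ≤ C) →
        ∀ j : ℤ, dist ((F ^ j) x) ((F0 ^ j) z) ≤ C1 := by
  obtain ⟨c1, hc1⟩ := near
  obtain ⟨c2, hc2⟩ := near'
  obtain ⟨C, hC⟩ := K.upper (max c1 c2)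
  obtain ⟨C2, hC2⟩ := K.proper (C / (K.lam - 1))
  obtain ⟨C3, hC3⟩ := K.twist C2
  obtain ⟨a, ha⟩ := K.Nupper
  have hl := K.one_lt
  have h0 : 0 < K.lam := by linarith
  have haC : ∀ (w : Fin k → ℝ) {D : ℝ}, ‖w‖ ≤ D → a * ‖w‖ ≤ |a| * D := fun w D hw =>
    (mul_le_mul_of_nonneg_right (le_abs_self a) (norm_nonneg w)).trans
      (mul_le_mul_of_nonneg_left hw (abs_nonneg a))
  refine ⟨max C2 (|a| * (c1 + C3) / (K.lam - 1) + K.lam * (|a| * (c1 + C3)) / (K.lam - 1)),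
    fun x z hxz => ?_⟩
  obtain ⟨R, hR⟩ := hxz
  obtain ⟨B, hB⟩ := K.upper R
  have h1 : ∀ j : ℤ, dist ((F ^ j) x).1 ((F0 ^ j) z).1 ≤ C2 := by
    intro j
    refine hC2 _ _ ?_ ?_
    · refine geo_SkewRel (u := fun i => K.su ((F ^ i) x).1 ((F0 ^ i) z).1) hl
        (fun i => (hB _ _ ((dist_fst_SkewRel _ _).trans (hR i))).1) (fun i => ?_) j
      have h1 := K.su_T ((F ^ i) x) ((F0 ^ i) z)
      have h2 := K.su_triangle (F0 ((F ^ i) x)).1 (F ((F ^ i) x)).1 (F0 ((F0 ^ i) z)).1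
      have h3 : K.su (F0 ((F ^ i) x)).1 (F ((F ^ i) x)).1 ≤ C := by
        refine (hC _ _ ((dist_fst_SkewRel _ _).trans ?_)).1
        rw [dist_comm]
        exact (hc1 _).trans (le_max_left _ _)
      show K.lam * K.su ((F ^ i) x).1 ((F0 ^ i) z).1 ≤
        C + K.su ((F ^ (i + 1)) x).1 ((F0 ^ (i + 1)) z).1
      rw [zsucc_SkewRel, zsucc_SkewRel]
      linarith
    · have h0 := geo_SkewRel (u := fun i => K.ss ((F ^ (-i)) x).1 ((F0 ^ (-i)) z).1) (C := C) hl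
        (fun i => (hB _ _ ((dist_fst_SkewRel _ _).trans (hR (-i)))).2) (fun i => ?_) (-j)
      · simpa only [neg_neg] using h0
      · have h1 := ss_symm_SkewRel K ((F ^ (-i)) x) ((F0 ^ (-i)) z)
        have h2 := K.ss_triangle (F0.symm ((F ^ (-i)) x)).1 (F.symm ((F ^ (-i)) x)).1
          (F0.symm ((F0 ^ (-i)) z)).1
        have h3 : K.ss (F0.symm ((F ^ (-i)) x)).1 (F.symm ((F ^ (-i)) x)).1 ≤ C := by
          refine (hC _ _ ((dist_fst_SkewRel _ _).trans ?_)).2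
          rw [dist_comm]
          exact (hc2 _).trans (le_max_right _ _)
        show K.lam * K.ss ((F ^ (-i)) x).1 ((F0 ^ (-i)) z).1 ≤
          C + K.ss ((F ^ (-(i + 1))) x).1 ((F0 ^ (-(i + 1))) z).1
        rw [show -(i + 1) = -i - 1 by ring, zpred_SkewRel, zpred_SkewRel]
        linarith
  set δ : ℤ → (Fin k → ℝ) := fun j => ((F ^ j) x).2 - ((F0 ^ j) z).2 with hδ
  have hδn : ∀ j, ‖δ j‖ ≤ R := fun j => (dist_snd_SkewRel _ _).trans (hR j)
  have hstep : ∀ j, ‖δ (j + 1) - K.B (δ j)‖ ≤ c1 + C3 := by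
    intro j
    have h2 : δ (j + 1) - K.B (δ j) =
        ((F ((F ^ j) x)).2 - (F0 ((F ^ j) x)).2) +
          ((F0 ((F ^ j) x)).2 - (F0 ((F0 ^ j) z)).2 -
            K.B (((F ^ j) x).2 - ((F0 ^ j) z).2)) := by
      simp only [hδ, zsucc_SkewRel]
      abel
    rw [h2]
    exact (norm_add_le _ _).trans
      (add_le_add ((dist_snd_SkewRel _ _).trans (hc1 _)) (hC3 _ _ (h1 j)))
  have hU : ∀ j, K.NU (δ j) ≤ |a| * (c1 + C3) / (K.lam - 1) := by
    refine geo_SkewRel (u := fun i => K.NU (δ i)) (B := |a| * R) hl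
      (fun i => (ha _).1.trans (haC _ (hδn i))) (fun i => ?_)
    have h2 := K.NU_B (δ i)
    have h3 := K.NU_add (δ (i + 1)) (-(δ (i + 1) - K.B (δ i)))
    rw [K.NU_neg] at h3
    have h4 : δ (i + 1) + -(δ (i + 1) - K.B (δ i)) = K.B (δ i) := by abel
    rw [h4] at h3
    have h5 := (ha (δ (i + 1) - K.B (δ i))).1.trans (haC _ (hstep i))
    show K.lam * K.NU (δ i) ≤ |a| * (c1 + C3) + K.NU (δ (i + 1))
    linarith
  have hS : ∀ j, K.NS (δ j) ≤ K.lam * (|a| * (c1 + C3)) / (K.lam - 1) := by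
    intro j
    have h2 := geo_SkewRel (u := fun i => K.NS (δ (-i))) (B := |a| * R)
      (C := K.lam * (|a| * (c1 + C3))) hl
      (fun i => (ha _).2.trans (haC _ (hδn (-i)))) (fun i => ?_) (-j)
    · simpa only [neg_neg] using h2
    · have h3 := K.NS_B (δ (-(i + 1)))
      have h4 := K.NS_add (K.B (δ (-(i + 1)))) (δ (-(i + 1) + 1) - K.B (δ (-(i + 1))))
      have h5 := (ha (δ (-(i + 1) + 1) - K.B (δ (-(i + 1))))).2.trans
        (haC _ (hstep (-(i + 1))))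
      have h6 : K.B (δ (-(i + 1))) + (δ (-(i + 1) + 1) - K.B (δ (-(i + 1)))) =
          δ (-(i + 1) + 1) := by abel
      rw [h6] at h4
      have h7 : -(i + 1) + 1 = -i := by ring
      rw [h7] at h4 h5
      have h8 : K.lam * K.NS (δ (-i)) ≤ K.lam * (K.NS (K.B (δ (-(i + 1)))) + |a| * (c1 + C3)) :=
        mul_le_mul_of_nonneg_left (h4.trans (by linarith)) h0.le
      show K.lam * K.NS (δ (-i)) ≤ K.lam * (|a| * (c1 + C3)) + K.NS (δ (-(i + 1)))
      rw [mul_add] at h8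
      linarith
  intro j
  rw [Prod.dist_eq]
  refine max_le_max (h1 j) ?_
  rw [dist_eq_norm]
  exact (K.Nlower (δ j)).trans (add_le_add (hU j) (hS j))

end Pool.Agent.ANO2
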